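import Mathlib

/-!
# The 7x+1 map: almost all residues descend

`C` is the map of the problem. `H j n` is the product of the weights `kp` of the first `j` steps from `n`
(`kp ^ 2` is at least the factor of the step); it depends on `n` modulo `30 ^ j`. The sums of `H` over residue classes
satisfy a linear recurrence with spectral radius `< 30`, so the density of the residues with `H J > 1 / 2` tends to `0`.
-/

set_option autoImplicit false

namespace KakU

/-- the map of the problem -/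
def C (n : ℕ) : ℕ := if 2 ∣ n then n / 2 else if 3 ∣ n then n / 3 else if 5 ∣ n then n / 5 else 7 * n + 1

/-- the weight of a step -/
def kp (n : ℕ) : ℚ := if 2 ∣ n then 5 / 7 else if 3 ∣ n then 3 / 5 else if 5 ∣ n then 1 / 2 else 8 / 3

/-- the weight of `j` steps -/
def H : ℕ → ℕ → ℚ
  | 0, _ => 1
  | j + 1, n => kp n * H j (C n)

theorem C_pos {n : ℕ} (hn : 0 < n) : 0 < C n := by
  unfold C
  split_ifs with h2 h3 h5
  · exact Nat.div_pos (Nat.le_of_dvd hn h2) (by norm_num)
  · exact Nat.div_pos (Nat.le_of_dvd hn h3) (by norm_num)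
  · exact Nat.div_pos (Nat.le_of_dvd hn h5) (by norm_num)
  · omega

theorem C_le {n : ℕ} (hn : 0 < n) : C n ≤ 8 * n := by
  unfold C
  split_ifs <;> omega

theorem C_iter_pos (j : ℕ) {n : ℕ} (hn : 0 < n) : 0 < C^[j] n := by
  induction j generalizing n with
  | zero => exact hn
  | succ j ih => rw [Function.iterate_succ_apply]; exact ih (C_pos hn)

theorem C_iter_le (j : ℕ) {n : ℕ} (hn : 0 < n) : C^[j] n ≤ 8 ^ j * n := by
  induction j generalizing n with
  | zero => simp
  | succ j ih =>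
    rw [Function.iterate_succ_apply]
    refine (ih (C_pos hn)).trans ?_
    have := C_le hn
    calc 8 ^ j * C n ≤ 8 ^ j * (8 * n) := Nat.mul_le_mul_left _ this
      _ = 8 ^ (j + 1) * n := by ring

theorem kp_pos (n : ℕ) : 0 < kp n := by
  unfold kp
  split_ifs <;> norm_num

theorem kp_le (n : ℕ) : kp n ≤ 8 / 3 := by
  unfold kp
  split_ifs <;> norm_num

theorem H_pos (j n : ℕ) : 0 < H j n := by
  induction j generalizing n with
  | zero => exact one_pos
  | succ j ih => exact mul_pos (kp_pos n) (ih _)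

theorem C_le_kp (n : ℕ) : (C n : ℚ) ≤ kp n ^ 2 * n + 1 := by
  have hn : (0 : ℚ) ≤ n := Nat.cast_nonneg n
  unfold C kp
  split_ifs with h2 h3 h5
  · have : (((n / 2 : ℕ)) : ℚ) ≤ (n : ℚ) / 2 := Nat.cast_div_le
    nlinarith
  · have : (((n / 3 : ℕ)) : ℚ) ≤ (n : ℚ) / 3 := Nat.cast_div_le
    nlinarith
  · have : (((n / 5 : ℕ)) : ℚ) ≤ (n : ℚ) / 5 := Nat.cast_div_le
    nlinarith
  · push_cast
    nlinarith

theorem H_sq_le (j n : ℕ) : H j n ^ 2 ≤ 8 ^ j := by
  induction j generalizing n with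
  | zero => simp [H]
  | succ j ih =>
    have h1 := ih (C n)
    have h2 := kp_le n
    have h3 := kp_pos n
    have h4 : kp n ^ 2 ≤ 8 := by nlinarith
    show (kp n * H j (C n)) ^ 2 ≤ 8 ^ (j + 1)
    calc (kp n * H j (C n)) ^ 2 = kp n ^ 2 * H j (C n) ^ 2 := by ring
      _ ≤ 8 * 8 ^ j := mul_le_mul h4 h1 (sq_nonneg _) (by norm_num)
      _ = 8 ^ (j + 1) := by ring

theorem C_iter_le_H (j n : ℕ) : ((C^[j] n : ℕ) : ℚ) ≤ H j n ^ 2 * n + 8 ^ j := by
  induction j generalizing n with
  | zero => simp [H]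
  | succ j ih =>
    rw [Function.iterate_succ_apply]
    have h1 := ih (C n)
    have h2 := C_le_kp n
    have h3 := H_sq_le j (C n)
    have h4 : 0 ≤ H j (C n) ^ 2 := sq_nonneg _
    show _ ≤ (kp n * H j (C n)) ^ 2 * n + 8 ^ (j + 1)
    calc ((C^[j] (C n) : ℕ) : ℚ) ≤ H j (C n) ^ 2 * (C n : ℚ) + 8 ^ j := h1
      _ ≤ H j (C n) ^ 2 * (kp n ^ 2 * n + 1) + 8 ^ j := by
        have := mul_le_mul_of_nonneg_left h2 h4
        linarith
      _ ≤ (kp n * H j (C n)) ^ 2 * n + 8 ^ (j + 1) := by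
        have h5 : (8 : ℚ) ^ (j + 1) = 8 * 8 ^ j := by ring
        have h6 : (0 : ℚ) < 8 ^ j := by positivity
        nlinarith

/-- descent -/
theorem descent {J n : ℕ} (h : H J n ≤ 1 / 2) (hn : 2 * 8 ^ J < n) : C^[J] n < n := by
  have h1 := C_iter_le_H J n
  have h2 := H_pos J n
  have h3 : H J n ^ 2 ≤ 1 / 4 := by nlinarith
  have h4 : ((2 * 8 ^ J : ℕ) : ℚ) < (n : ℚ) := by exact_mod_cast hn
  push_cast at h4
  have h5 : (0 : ℚ) ≤ n := Nat.cast_nonneg n
  have h6 : H J n ^ 2 * n ≤ 1 / 4 * n := mul_le_mul_of_nonneg_right h3 h5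
  have h7 : ((C^[J] n : ℕ) : ℚ) < (n : ℚ) := by
    have h8 : (0 : ℚ) < 8 ^ J := by positivity
    linarith
  exact_mod_cast h7

/-! ## Periodicity -/

theorem dvd_add_mul30 (p : ℕ) (hp : p ∣ 30) (n s : ℕ) : p ∣ n + 30 * s ↔ p ∣ n := by
  rw [Nat.dvd_add_left (hp.mul_right s)]

theorem kp_add (n s : ℕ) : kp (n + 30 * s) = kp n := by
  unfold kp
  simp only [dvd_add_mul30 2 (by norm_num), dvd_add_mul30 3 (by norm_num), dvd_add_mul30 5 (by norm_num)]

theorem C_add (n s : ℕ) : ∃ u, C (n + 30 * s) = C n + u * s := by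
  unfold C
  simp only [dvd_add_mul30 2 (by norm_num), dvd_add_mul30 3 (by norm_num), dvd_add_mul30 5 (by norm_num)]
  split_ifs with h2 h3 h5
  · exact ⟨15, by omega⟩
  · exact ⟨10, by omega⟩
  · exact ⟨6, by omega⟩
  · exact ⟨210, by omega⟩

theorem H_per (j n t : ℕ) : H j (n + 30 ^ j * t) = H j n := by
  induction j generalizing n t with
  | zero => rfl
  | succ j ih =>
    have e : n + 30 ^ (j + 1) * t = n + 30 * (30 ^ j * t) := by ring
    obtain ⟨u, hu⟩ := C_add n (30 ^ j * t)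
    show kp (n + 30 ^ (j + 1) * t) * H j (C (n + 30 ^ (j + 1) * t)) = kp n * H j (C n)
    rw [e, kp_add, hu]
    have e2 : C n + u * (30 ^ j * t) = C n + 30 ^ j * (u * t) := by ring
    rw [e2, ih]

theorem H_mod (j n : ℕ) : H j (n % 30 ^ j) = H j n := by
  conv_rhs => rw [← Nat.mod_add_div n (30 ^ j)]
  rw [H_per]

/-! ## Sums over residue classes -/

/-- the sum of the weights over a class modulo 30 -/
def T (j b : ℕ) : ℚ := ∑ s ∈ Finset.range (30 ^ j), H (j + 1) (30 * s + b)

theorem sum_mul_range (g : ℕ → ℚ) (p m : ℕ) :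
    ∑ t ∈ Finset.range (p * m), g t = ∑ i ∈ Finset.range p, ∑ s ∈ Finset.range m, g (i + p * s) := by
  induction m with
  | zero => simp
  | succ m ih =>
    have h1 : p * (m + 1) = p * m + p := by ring
    rw [h1, Finset.sum_range_add, ih]
    rw [← Finset.sum_add_distrib]
    refine Finset.sum_congr rfl fun i _ => ?_
    rw [Finset.sum_range_succ, add_comm (p * m) i]

theorem sum_mul_range' (g : ℕ → ℚ) (p m : ℕ) :
    ∑ t ∈ Finset.range (m * p), g t = ∑ i ∈ Finset.range p, ∑ s ∈ Finset.range m, g (s + m * i) := by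
  rw [sum_mul_range, Finset.sum_comm]

/-- a division step -/
theorem rec_div (j p q a : ℕ) (hpq : p * q = 30) (g : ℕ → ℚ) (hg : ∀ n t, g (n + 30 ^ (j + 1) * t) = g n) :
    ∑ t ∈ Finset.range (30 ^ (j + 1)), g (q * t + a) =
      q * ∑ i ∈ Finset.range p, ∑ s ∈ Finset.range (30 ^ j), g (30 * s + (q * i + a)) := by
  have e : 30 ^ (j + 1) = (p * 30 ^ j) * q := by
    have e0 : 30 ^ (j + 1) = 30 ^ j * (p * q) := by rw [hpq, pow_succ]
    rw [e0]; ring
  have hcon : ∀ i ∈ Finset.range q, ∑ s ∈ Finset.range (p * 30 ^ j), g (q * (s + p * 30 ^ j * i) + a) =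
      ∑ s ∈ Finset.range (p * 30 ^ j), g (q * s + a) := by
    intro i _
    refine Finset.sum_congr rfl fun s _ => ?_
    rw [← hg (q * s + a) i]
    congr 1
    rw [pow_succ, ← hpq]
    ring
  rw [e, sum_mul_range' (fun t => g (q * t + a)), Finset.sum_congr rfl hcon, Finset.sum_const,
    Finset.card_range, nsmul_eq_mul, sum_mul_range (fun t => g (q * t + a))]
  congr 1
  refine Finset.sum_congr rfl fun i _ => Finset.sum_congr rfl fun s _ => ?_
  congr 1
  rw [← hpq]
  ring

theorem sum_affine (N u e : ℕ) (hN : 0 < N) (hu : u.Coprime N) (φ : ℕ → ℚ) (hφ : ∀ n t, φ (n + N * t) = φ n) :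
    ∑ t ∈ Finset.range N, φ (u * t + e) = ∑ s ∈ Finset.range N, φ s := by
  have hmod : ∀ n, φ (n % N) = φ n := by
    intro n
    conv_rhs => rw [← Nat.mod_add_div n N]
    rw [hφ]
  have himg : (Finset.range N).image (fun t => (u * t + e) % N) = Finset.range N := by
    apply Finset.eq_of_subset_of_card_le
    · intro x hx
      obtain ⟨t, _, rfl⟩ := Finset.mem_image.1 hx
      exact Finset.mem_range.2 (Nat.mod_lt _ hN)
    · rw [Finset.card_image_of_injOn]
      intro x hx y hy hxy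
      have h1 : u * x + e ≡ u * y + e [MOD N] := hxy
      have h2 : u * x ≡ u * y [MOD N] := Nat.ModEq.add_right_cancel' e h1
      have h3 : x ≡ y [MOD N] := Nat.ModEq.cancel_left_of_coprime (by rw [Nat.gcd_comm]; exact hu) h2
      exact Nat.ModEq.eq_of_lt_of_lt h3 (Finset.mem_range.1 (Finset.mem_coe.1 hx))
        (Finset.mem_range.1 (Finset.mem_coe.1 hy))
  conv_rhs => rw [← himg]
  rw [Finset.sum_image]
  · exact Finset.sum_congr rfl fun t _ => (hmod _).symm
  · intro x hx y hy hxy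
    have h1 : u * x + e ≡ u * y + e [MOD N] := hxy
    have h2 : u * x ≡ u * y [MOD N] := Nat.ModEq.add_right_cancel' e h1
    have h3 : x ≡ y [MOD N] := Nat.ModEq.cancel_left_of_coprime (by rw [Nat.gcd_comm]; exact hu) h2
    exact Nat.ModEq.eq_of_lt_of_lt h3 (Finset.mem_range.1 (Finset.mem_coe.1 hx))
      (Finset.mem_range.1 (Finset.mem_coe.1 hy))

/-- a unit step -/
theorem rec_unit (j a b e : ℕ) (he : 7 * a + 1 = 30 * e + b) (g : ℕ → ℚ)
    (hg : ∀ n t, g (n + 30 ^ (j + 1) * t) = g n) :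
    ∑ t ∈ Finset.range (30 ^ (j + 1)), g (7 * (30 * t + a) + 1) =
      30 * ∑ s ∈ Finset.range (30 ^ j), g (30 * s + b) := by
  have hcon : ∀ i ∈ Finset.range 30, ∑ s ∈ Finset.range (30 ^ j), g (7 * (30 * (s + 30 ^ j * i) + a) + 1) =
      ∑ s ∈ Finset.range (30 ^ j), g (30 * (7 * s + e) + b) := by
    intro i _
    refine Finset.sum_congr rfl fun s _ => ?_
    rw [← hg (30 * (7 * s + e) + b) (7 * i)]
    congr 1
    have : 30 ^ (j + 1) = 30 * 30 ^ j := by ring
    rw [this]
    nlinarith [he]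
  rw [pow_succ, sum_mul_range' (fun t => g (7 * (30 * t + a) + 1)), Finset.sum_congr rfl hcon, Finset.sum_const,
    Finset.card_range, nsmul_eq_mul]
  congr 1
  have hc : Nat.Coprime 7 (30 ^ j) := Nat.Coprime.pow_right j (by norm_num)
  exact sum_affine (30 ^ j) 7 e (by positivity) hc (fun s => g (30 * s + b)) fun n t => by
    show g (30 * (n + 30 ^ j * t) + b) = g (30 * n + b)
    rw [← hg (30 * n + b) t]
    congr 1
    ring

theorem T_succ (j a : ℕ) : T (j + 1) a = kp a * ∑ t ∈ Finset.range (30 ^ (j + 1)), H (j + 1) (C (30 * t + a)) := by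
  unfold T
  rw [Finset.mul_sum]
  refine Finset.sum_congr rfl fun t _ => ?_
  show kp (30 * t + a) * _ = _
  rw [add_comm (30 * t) a, kp_add]

theorem T_even (j a : ℕ) (ha : 2 ∣ a) : T (j + 1) a = 75 / 7 * (T j (a / 2) + T j (15 + a / 2)) := by
  rw [T_succ]
  have h1 : ∀ t ∈ Finset.range (30 ^ (j + 1)), H (j + 1) (C (30 * t + a)) = H (j + 1) (15 * t + a / 2) := by
    intro t _
    congr 1
    unfold C
    rw [if_pos (by omega)]
    omega
  rw [Finset.sum_congr rfl h1, rec_div j 2 15 (a / 2) (by norm_num) _ (H_per (j + 1))]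
  have hk : kp a = 5 / 7 := by unfold kp; rw [if_pos ha]
  rw [hk, Finset.sum_range_succ, Finset.sum_range_succ, Finset.sum_range_zero]
  simp only [T, mul_zero, zero_add, mul_one]
  push_cast
  ring

theorem T_three (j a : ℕ) (h2 : ¬ 2 ∣ a) (ha : 3 ∣ a) :
    T (j + 1) a = 6 * (T j (a / 3) + T j (10 + a / 3) + T j (20 + a / 3)) := by
  rw [T_succ]
  have h1 : ∀ t ∈ Finset.range (30 ^ (j + 1)), H (j + 1) (C (30 * t + a)) = H (j + 1) (10 * t + a / 3) := by
    intro t _
    congr 1
    unfold C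
    rw [if_neg (by omega), if_pos (by omega)]
    omega
  rw [Finset.sum_congr rfl h1, rec_div j 3 10 (a / 3) (by norm_num) _ (H_per (j + 1))]
  have hk : kp a = 3 / 5 := by unfold kp; rw [if_neg h2, if_pos ha]
  rw [hk, Finset.sum_range_succ, Finset.sum_range_succ, Finset.sum_range_succ, Finset.sum_range_zero]
  simp only [T, mul_zero, zero_add, mul_one]
  norm_num
  ring

theorem T_five (j a : ℕ) (h2 : ¬ 2 ∣ a) (h3 : ¬ 3 ∣ a) (ha : 5 ∣ a) :
    T (j + 1) a = 3 * (T j (a / 5) + T j (6 + a / 5) + T j (12 + a / 5) + T j (18 + a / 5) + T j (24 + a / 5)) := by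
  rw [T_succ]
  have h1 : ∀ t ∈ Finset.range (30 ^ (j + 1)), H (j + 1) (C (30 * t + a)) = H (j + 1) (6 * t + a / 5) := by
    intro t _
    congr 1
    unfold C
    rw [if_neg (by omega), if_neg (by omega), if_pos (by omega)]
    omega
  rw [Finset.sum_congr rfl h1, rec_div j 5 6 (a / 5) (by norm_num) _ (H_per (j + 1))]
  have hk : kp a = 1 / 2 := by unfold kp; rw [if_neg h2, if_neg h3, if_pos ha]
  rw [hk, Finset.sum_range_succ, Finset.sum_range_succ, Finset.sum_range_succ, Finset.sum_range_succ,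
    Finset.sum_range_succ, Finset.sum_range_zero]
  simp only [T, mul_zero, zero_add, mul_one]
  norm_num
  ring

theorem T_unit (j a b e : ℕ) (h2 : ¬ 2 ∣ a) (h3 : ¬ 3 ∣ a) (h5 : ¬ 5 ∣ a) (he : 7 * a + 1 = 30 * e + b) :
    T (j + 1) a = 80 * T j b := by
  rw [T_succ]
  have h1 : ∀ t ∈ Finset.range (30 ^ (j + 1)), H (j + 1) (C (30 * t + a)) =
      H (j + 1) (7 * (30 * t + a) + 1) := by
    intro t _
    congr 1
    unfold C
    rw [if_neg (by omega), if_neg (by omega), if_neg (by omega)]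
  rw [Finset.sum_congr rfl h1, rec_unit j a b e he _ (H_per (j + 1))]
  have hk : kp a = 8 / 3 := by unfold kp; rw [if_neg h2, if_neg h3, if_neg h5]
  rw [hk]
  simp only [T]
  ring

/-- the certificate -/
def w (a : ℕ) : ℚ := ([20, 242, 112, 86, 60, 89, 50, 92, 90, 98, 44, 137, 35, 303, 69, 35, 67, 54, 51, 187, 34, 46, 98,
  94, 42, 49, 134, 81, 66, 113] : List ℚ).getD a 0

theorem T_le (j : ℕ) : ∀ a, a < 30 → T j a ≤ w a * (30 * (999 / 1000)) ^ j := by
  induction j with
  | zero =>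
    intro a ha
    have h1 : T 0 a = kp a := by simp [T, H]
    rw [h1, pow_zero, mul_one]
    refine (kp_le a).trans ?_
    interval_cases a <;> norm_num [w]
  | succ j ih =>
    intro a ha
    have hX : (0 : ℚ) < (30 * (999 / 1000)) ^ j := by positivity
    rw [pow_succ]
    have ih' : ∀ b, b < 30 → T j b ≤ w b * (30 * (999 / 1000)) ^ j := ih
    generalize (30 * (999 / 1000) : ℚ) ^ j = X at *
    have i0 := ih' 0 (by norm_num)
    have i1 := ih' 1 (by norm_num)
    have i2 := ih' 2 (by norm_num)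
    have i3 := ih' 3 (by norm_num)
    have i4 := ih' 4 (by norm_num)
    have i5 := ih' 5 (by norm_num)
    have i6 := ih' 6 (by norm_num)
    have i7 := ih' 7 (by norm_num)
    have i8 := ih' 8 (by norm_num)
    have i9 := ih' 9 (by norm_num)
    have i10 := ih' 10 (by norm_num)
    have i11 := ih' 11 (by norm_num)
    have i12 := ih' 12 (by norm_num)
    have i13 := ih' 13 (by norm_num)
    have i14 := ih' 14 (by norm_num)
    have i15 := ih' 15 (by norm_num)
    have i16 := ih' 16 (by norm_num)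
    have i17 := ih' 17 (by norm_num)
    have i18 := ih' 18 (by norm_num)
    have i19 := ih' 19 (by norm_num)
    have i20 := ih' 20 (by norm_num)
    have i21 := ih' 21 (by norm_num)
    have i22 := ih' 22 (by norm_num)
    have i23 := ih' 23 (by norm_num)
    have i24 := ih' 24 (by norm_num)
    have i25 := ih' 25 (by norm_num)
    have i26 := ih' 26 (by norm_num)
    have i27 := ih' 27 (by norm_num)
    have i28 := ih' 28 (by norm_num)
    have i29 := ih' 29 (by norm_num)
    norm_num [w] at i0 i1 i2 i3 i4 i5 i6 i7 i8 i9 i10 i11 i12 i13 i14 i15 i16 i17 i18 i19 i20 i21 i22 i23 i24 i25 i26 i27 i28 i29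
    interval_cases a
    · rw [T_even j 0 (by norm_num)]; norm_num [w]; linarith
    · rw [T_unit j 1 8 0 (by norm_num) (by norm_num) (by norm_num) (by norm_num)]; norm_num [w]; linarith
    · rw [T_even j 2 (by norm_num)]; norm_num [w]; linarith
    · rw [T_three j 3 (by norm_num) (by norm_num)]; norm_num [w]; linarith
    · rw [T_even j 4 (by norm_num)]; norm_num [w]; linarith
    · rw [T_five j 5 (by norm_num) (by norm_num) (by norm_num)]; norm_num [w]; linarith
    · rw [T_even j 6 (by norm_num)]; norm_num [w]; linarith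
    · rw [T_unit j 7 20 1 (by norm_num) (by norm_num) (by norm_num) (by norm_num)]; norm_num [w]; linarith
    · rw [T_even j 8 (by norm_num)]; norm_num [w]; linarith
    · rw [T_three j 9 (by norm_num) (by norm_num)]; norm_num [w]; linarith
    · rw [T_even j 10 (by norm_num)]; norm_num [w]; linarith
    · rw [T_unit j 11 18 2 (by norm_num) (by norm_num) (by norm_num) (by norm_num)]; norm_num [w]; linarith
    · rw [T_even j 12 (by norm_num)]; norm_num [w]; linarith
    · rw [T_unit j 13 2 3 (by norm_num) (by norm_num) (by norm_num) (by norm_num)]; norm_num [w]; linarith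
    · rw [T_even j 14 (by norm_num)]; norm_num [w]; linarith
    · rw [T_three j 15 (by norm_num) (by norm_num)]; norm_num [w]; linarith
    · rw [T_even j 16 (by norm_num)]; norm_num [w]; linarith
    · rw [T_unit j 17 0 4 (by norm_num) (by norm_num) (by norm_num) (by norm_num)]; norm_num [w]; linarith
    · rw [T_even j 18 (by norm_num)]; norm_num [w]; linarith
    · rw [T_unit j 19 14 4 (by norm_num) (by norm_num) (by norm_num) (by norm_num)]; norm_num [w]; linarith
    · rw [T_even j 20 (by norm_num)]; norm_num [w]; linarith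
    · rw [T_three j 21 (by norm_num) (by norm_num)]; norm_num [w]; linarith
    · rw [T_even j 22 (by norm_num)]; norm_num [w]; linarith
    · rw [T_unit j 23 12 5 (by norm_num) (by norm_num) (by norm_num) (by norm_num)]; norm_num [w]; linarith
    · rw [T_even j 24 (by norm_num)]; norm_num [w]; linarith
    · rw [T_five j 25 (by norm_num) (by norm_num) (by norm_num)]; norm_num [w]; linarith
    · rw [T_even j 26 (by norm_num)]; norm_num [w]; linarith
    · rw [T_three j 27 (by norm_num) (by norm_num)]; norm_num [w]; linarith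
    · rw [T_even j 28 (by norm_num)]; norm_num [w]; linarith
    · rw [T_unit j 29 24 6 (by norm_num) (by norm_num) (by norm_num) (by norm_num)]; norm_num [w]; linarith

/-- the residues modulo `30 ^ J` with large weight -/
def Bad (J : ℕ) : Finset ℕ := (Finset.range (30 ^ J)).filter fun r => 1 / 2 < H J r

theorem bad_card (j : ℕ) : ((Bad (j + 1)).card : ℚ) ≤ 6000 * (999 / 1000) ^ j * 30 ^ j := by
  have h1 : ((Bad (j + 1)).card : ℚ) * (1 / 2) ≤ ∑ r ∈ Bad (j + 1), H (j + 1) r := by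
    rw [← nsmul_eq_mul]
    refine Finset.card_nsmul_le_sum _ _ _ fun r hr => ?_
    exact (Finset.mem_filter.1 hr).2.le
  have h2 : ∑ r ∈ Bad (j + 1), H (j + 1) r ≤ ∑ r ∈ Finset.range (30 ^ (j + 1)), H (j + 1) r :=
    Finset.sum_le_sum_of_subset_of_nonneg (Finset.filter_subset _ _) fun r _ _ => (H_pos _ _).le
  have h3 : ∑ r ∈ Finset.range (30 ^ (j + 1)), H (j + 1) r = ∑ a ∈ Finset.range 30, T j a := by
    rw [pow_succ, mul_comm, sum_mul_range]
    refine Finset.sum_congr rfl fun a _ => ?_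
    unfold T
    refine Finset.sum_congr rfl fun s _ => ?_
    rw [add_comm a (30 * s)]
  have h4 : ∑ a ∈ Finset.range 30, T j a ≤ ∑ a ∈ Finset.range 30, w a * (30 * (999 / 1000)) ^ j :=
    Finset.sum_le_sum fun a ha => T_le j a (Finset.mem_range.1 ha)
  rw [← Finset.sum_mul] at h4
  have h5 : ∑ a ∈ Finset.range 30, w a ≤ 3000 := by
    simp only [Finset.sum_range_succ, Finset.sum_range_zero, w]
    norm_num
  have h6 : (0 : ℚ) < (30 * (999 / 1000)) ^ j := by positivity
  have h7 : (∑ a ∈ Finset.range 30, w a) * (30 * (999 / 1000) : ℚ) ^ j ≤ 3000 * (30 * (999 / 1000)) ^ j :=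
    mul_le_mul_of_nonneg_right h5 h6.le
  have h8 : (30 * (999 / 1000) : ℚ) ^ j = (999 / 1000) ^ j * 30 ^ j := by
    rw [mul_pow]; ring
  rw [h8] at h7 h4
  rw [h3] at h2
  have h9 : ((Bad (j + 1)).card : ℚ) * (1 / 2) ≤ 3000 * ((999 / 1000) ^ j * 30 ^ j) :=
    h1.trans (h2.trans (h4.trans h7))
  linarith

theorem bad_density (ε : ℝ) (hε : 0 < ε) (J0 : ℕ) : ∃ J, J0 ≤ J ∧ ((Bad J).card : ℝ) ≤ ε * 30 ^ J := by
  obtain ⟨n, hn⟩ := exists_pow_lt_of_lt_one (show (0 : ℝ) < ε / 200 by positivity)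
    (show (999 / 1000 : ℝ) < 1 by norm_num)
  refine ⟨max n J0 + 1, by omega, ?_⟩
  have h1 : ((Bad (max n J0 + 1)).card : ℝ) ≤ 6000 * (999 / 1000) ^ (max n J0) * 30 ^ (max n J0) := by
    have h0 : (((Bad (max n J0 + 1)).card : ℚ) : ℝ) ≤
        ((6000 * (999 / 1000) ^ (max n J0) * 30 ^ (max n J0) : ℚ) : ℝ) := Rat.cast_le.2 (bad_card (max n J0))
    push_cast at h0
    exact h0
  have h2 : (999 / 1000 : ℝ) ^ (max n J0) ≤ (999 / 1000) ^ n :=
    pow_le_pow_of_le_one (by norm_num) (by norm_num) (le_max_left _ _)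
  have h3 : (0 : ℝ) < 30 ^ (max n J0) := by positivity
  rw [pow_succ]
  have h4 : 6000 * (999 / 1000 : ℝ) ^ (max n J0) ≤ ε * 30 := by linarith
  calc ((Bad (max n J0 + 1)).card : ℝ) ≤ 6000 * (999 / 1000) ^ (max n J0) * 30 ^ (max n J0) := h1
    _ ≤ ε * 30 * 30 ^ (max n J0) := mul_le_mul_of_nonneg_right h4 h3.le
    _ = ε * (30 ^ (max n J0) * 30) := by ring

theorem not_bad {J n : ℕ} (h : n % 30 ^ J ∉ Bad J) : H J n ≤ 1 / 2 := by
  by_contra hc
  push Not at hc
  apply h
  unfold Bad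
  rw [Finset.mem_filter, H_mod]
  exact ⟨Finset.mem_range.2 (Nat.mod_lt _ (by positivity)), hc⟩

end KakU
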