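import Pool.Agent.Lib.KakU.Map

/-!
# The trajectories of the map `fx`
-/

set_option autoImplicit false

namespace KakU

open CPM CPM.FlatAux

/-- the number that stands for a configuration -/
def cd (c : ℕ) (p : LP) (B q N : ℕ) : ℕ := c * (S p B * (N - 1) + q + 1)

section

variable {c K : ℕ} {E : Finset ℕ} {p : LP} {B : ℕ}

theorem cd_mod (q N : ℕ) : cd c p B q N % c = 0 := Nat.mul_mod_right _ _

theorem cd_div (hc : 0 < c) (q N : ℕ) : cd c p B q N / c = S p B * (N - 1) + q + 1 :=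
  Nat.mul_div_cancel_left _ hc

theorem fx_cd (hc : 0 < c) (h0 : 0 ∈ E) (x q N : ℕ) (hq : q ≤ hl p B) (hN : N ≠ 0) :
    fx c K E p B x (cd c p B q N) =
      match nx p B x (q, N) with
      | some (q', N') => cd c p B q' N'
      | none => N := by
  have hS : q < S p B := Nat.lt_succ_of_le hq
  have e1 : (S p B * (N - 1) + q + 1 - 1) % S p B = q := by
    rw [Nat.add_sub_cancel, Nat.mul_add_mod_self_left, Nat.mod_eq_of_lt hS]
  have e2 : (S p B * (N - 1) + q + 1 - 1) / S p B + 1 = N := by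
    rw [Nat.add_sub_cancel, Nat.mul_add_div (S_pos p B), Nat.div_eq_of_lt hS]
    omega
  unfold fx
  rw [cd_mod, cd_div hc, if_neg (not_not_intro h0), if_pos rfl]
  unfold g
  rw [e1, e2]
  rfl

theorem nx_le (x q N q' N' : ℕ) (h : nx p B x (q, N) = some (q', N')) : q' ≤ hl p B := by
  unfold nx at h
  split_ifs at h with h2
  · simp only [Option.some.injEq, Prod.mk.injEq] at h
    rw [← h.1]
    unfold hl
    omega
  · simp only at h
    have ht := mach_tgt p B q
    cases hi : mach p B q with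
    | halt => rw [hi] at h; simp [pex] at h
    | go r =>
      rw [hi] at h ht
      simp only [pex, Option.some.injEq, Prod.mk.injEq] at h
      exact ht false q' (by simp [PI.tgt, h.1])
    | inc P r =>
      rw [hi] at h ht
      simp only [pex, Option.some.injEq, Prod.mk.injEq] at h
      exact ht false q' (by simp [PI.tgt, h.1])
    | dec P r0 r1 =>
      rw [hi] at h ht
      simp only [pex] at h
      split_ifs at h with hd
      · simp only [Option.some.injEq, Prod.mk.injEq] at h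
        exact ht true q' (by simp [PI.tgt, h.1])
      · simp only [Option.some.injEq, Prod.mk.injEq] at h
        exact ht false q' (by simp [PI.tgt, h.1])

theorem run_le (x n q N : ℕ) (hq : q ≤ hl p B) (q' N' : ℕ) (h : run (nx p B x) n (q, N) = some (q', N')) :
    q' ≤ hl p B := by
  cases n with
  | zero =>
    simp only [run, Option.some.injEq, Prod.mk.injEq] at h
    omega
  | succ n =>
    simp only [run] at h
    cases hr : run (nx p B x) n (q, N) with
    | none => rw [hr] at h; simp at h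
    | some d =>
      obtain ⟨q1, N1⟩ := d
      rw [hr, Option.bind_some] at h
      exact nx_le x q1 N1 q' N' h

theorem iter_cd (hc : 0 < c) (h0 : 0 ∈ E) (hreg : ∀ r ∈ p.regs, r < B) (hB : 4 ≤ B) (x q N : ℕ)
    (hq : q ≤ hl p B) (hN : N ≠ 0) (n : ℕ) : ∀ q' N', run (nx p B x) n (q, N) = some (q', N') →
    (fx c K E p B x)^[n] (cd c p B q N) = cd c p B q' N' := by
  induction n with
  | zero =>
    intro q' N' h
    simp only [run, Option.some.injEq, Prod.mk.injEq] at h
    rw [h.1, h.2]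
    rfl
  | succ n ih =>
    intro q' N' h
    simp only [run] at h
    cases hr : run (nx p B x) n (q, N) with
    | none => rw [hr] at h; simp at h
    | some d =>
      obtain ⟨q1, N1⟩ := d
      rw [hr, Option.bind_some] at h
      rw [Function.iterate_succ_apply', ih q1 N1 hr, fx_cd hc h0 x q1 N1 (run_le x n q N hq q1 N1 hr)
        (run_same p B x hreg hB n q N hN q1 N1 hr).1, h]

theorem iter_exit (hc : 0 < c) (h0 : 0 ∈ E) (hreg : ∀ r ∈ p.regs, r < B) (hB : 4 ≤ B) (x q N : ℕ)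
    (hq : q ≤ hl p B) (hN : N ≠ 0) (n N' : ℕ) (h : run (nx p B x) n (q, N) = some (hl p B, N')) :
    (fx c K E p B x)^[n + 1] (cd c p B q N) = N' := by
  rw [Function.iterate_succ_apply', iter_cd hc h0 hreg hB x q N hq hN n _ _ h,
    fx_cd hc h0 x _ N' le_rfl (run_same p B x hreg hB n q N hN _ N' h).1, nx_H]

/-- every multiple of `c` stands for a configuration -/
theorem exists_cd (v : ℕ) (hv : 0 < v) (h : v % c = 0) :
    ∃ q N, q ≤ hl p B ∧ N ≠ 0 ∧ v = cd c p B q N ∧ N ≤ v / c := by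
  have hd := Nat.div_add_mod v c
  rw [h, add_zero] at hd
  have hk : v / c ≠ 0 := by
    intro h0
    rw [h0, mul_zero] at hd
    omega
  refine ⟨(v / c - 1) % S p B, (v / c - 1) / S p B + 1, Nat.le_of_lt_succ (Nat.mod_lt _ (S_pos p B)),
    Nat.succ_ne_zero _, ?_, ?_⟩
  · unfold cd
    rw [Nat.add_sub_cancel, Nat.div_add_mod, Nat.sub_add_cancel (Nat.one_le_iff_ne_zero.2 hk), hd]
  · have h1 := Nat.div_le_self (v / c - 1) (S p B)
    calc (v / c - 1) / S p B + 1 ≤ v / c - 1 + 1 := Nat.add_le_add_right h1 1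
      _ = v / c := Nat.sub_add_cancel (Nat.one_le_iff_ne_zero.2 hk)

variable (hc : 0 < c) (h0 : 0 ∈ E) (hreg : ∀ r ∈ p.regs, r < B) (hB : 4 ≤ B) (x : ℕ)
  (Q : ℕ → Prop) (hQ : ∀ n, 0 < n → Q (fx c K E p B x n) → Q n)

include hc in
theorem fx_iter_pos (j n : ℕ) (hn : 0 < n) : 0 < (fx c K E p B x)^[j] n := by
  induction j generalizing n with
  | zero => exact hn
  | succ j ih => rw [Function.iterate_succ_apply]; exact ih _ (fx_pos hc x hn)

include hc hQ in
theorem of_iter (j : ℕ) : ∀ n, 0 < n → Q ((fx c K E p B x)^[j] n) → Q n := by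
  induction j with
  | zero => exact fun n _ h => h
  | succ j ih =>
    intro n hn h
    rw [Function.iterate_succ_apply] at h
    exact hQ n hn (ih _ (fx_pos hc x hn) h)

theorem fx_of_not_mem {n : ℕ} (h : n % c ∉ E) : fx c K E p B x n = C n := by
  unfold fx
  rw [if_pos h]

theorem fx_of_le {n : ℕ} (hn : 0 < n) (hK : n ≤ K) (hc' : n < c) : fx c K E p B x n = C n := by
  by_cases h : n % c ∉ E
  · exact fx_of_not_mem x h
  · unfold fx
    rw [Nat.mod_eq_of_lt hc'] at h ⊢
    rw [if_neg h, if_neg hn.ne', if_pos hK, Nat.div_eq_of_lt hc', add_zero]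

theorem fx_of_mid {n : ℕ} (hK : K < n) (hc' : n < c) (hE : n ∈ E) : fx c K E p B x n = 1 := by
  unfold fx
  rw [Nat.mod_eq_of_lt hc', if_neg (not_not_intro hE), if_neg (by omega), if_neg (by omega),
    Nat.div_eq_of_lt hc']

variable (h1 : Q 1) (hm : ∀ q ≤ hl p B, ∀ N ≠ 0, (∃ n N', N' ≠ 0 ∧ run (nx p B x) n (q, N) = some (hl p B, N') ∧
    N' ≤ N) ∨ Q (cd c p B q N))

include hQ h1 in
/-- a trajectory of `C` below `c` that reaches 1 -/
theorem follow (t : ℕ) : ∀ v, 0 < v → C^[t] v = 1 → (∀ i ≤ t, C^[i] v < c) → Q v := by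
  induction t with
  | zero =>
    intro v _ h _
    rw [Function.iterate_zero, id] at h
    rw [h]
    exact h1
  | succ t ih =>
    intro v hv h hlt
    have hvc : v < c := hlt 0 (Nat.zero_le _)
    have hC : Q (C v) := by
      apply ih (C v) (C_pos hv)
      · rw [← Function.iterate_succ_apply]; exact h
      · intro i hi
        rw [← Function.iterate_succ_apply]
        exact hlt (i + 1) (by omega)
    by_cases hE : v % c ∈ E
    · rw [Nat.mod_eq_of_lt hvc] at hE
      by_cases hK : v ≤ K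
      · exact hQ v hv (by rw [fx_of_le x hv hK hvc]; exact hC)
      · exact hQ v hv (by rw [fx_of_mid x (by omega) hvc hE]; exact h1)
    · exact hQ v hv (by rw [fx_of_not_mem x hE]; exact hC)

include hc h0 hreg hB hm in
/-- a class of `E` brings the trajectory down -/
theorem drop (v : ℕ) (hv : K < v) (hE : v % c ∈ E) :
    (∃ t, 0 < (fx c K E p B x)^[t] v ∧ (fx c K E p B x)^[t] v ≤ 8 * K + 1 + v / c) ∨ Q v := by
  by_cases hz : v % c = 0
  · obtain ⟨q, N, hq, hN, hcd, hle⟩ := exists_cd (p := p) (B := B) v (by omega) hz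
    rcases hm q hq N hN with ⟨n, N', g1, g2, g3⟩ | h
    · refine Or.inl ⟨n + 1, ?_⟩
      have := iter_exit (K := K) hc h0 hreg hB x q N hq hN n N' g2
      rw [← hcd] at this
      rw [this]
      omega
    · rw [← hcd] at h
      exact Or.inr h
  · refine Or.inl ⟨1, fx_pos hc x (by omega), ?_⟩
    show fx c K E p B x v ≤ _
    unfold fx
    rw [if_neg (not_not_intro hE), if_neg hz]
    split_ifs with hK
    · have := C_le (Nat.pos_of_ne_zero hz)
      omega
    · omega

/-- the trajectory of `C`, as long as it does not meet `E` -/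
theorem walk (n j : ℕ) : (fx c K E p B x)^[j] n = C^[j] n ∨
    ∃ i < j, (fx c K E p B x)^[i] n = C^[i] n ∧ C^[i] n % c ∈ E := by
  induction j with
  | zero => exact Or.inl rfl
  | succ j ih =>
    rcases ih with h | ⟨i, hi, h⟩
    · by_cases hE : C^[j] n % c ∈ E
      · exact Or.inr ⟨j, Nat.lt_succ_self j, h, hE⟩
      · left
        rw [Function.iterate_succ_apply', Function.iterate_succ_apply', h, fx_of_not_mem x hE]
    · exact Or.inr ⟨i, by omega, h⟩

include hc h0 hreg hB hQ h1 hm in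
/-- **the induction** -/
theorem induct (J T B1 : ℕ) (hJ : ∀ n, n % c ∉ E → H J n ≤ 1 / 2) (hsm : ∀ r ≤ B1, r ∈ E) (hB1c : B1 < c)
    (hJB : 2 * 8 ^ J ≤ B1) (hKB : 16 * K + 2 ≤ B1) (hJc : 2 * 8 ^ J ≤ c)
    (hT : ∀ n, 0 < n → n ≤ K → ∃ t ≤ T, C^[t] n = 1) (hTc : 8 ^ T * K < c) : ∀ n, 0 < n → Q n := by
  have hsmall : ∀ n, 0 < n → n ≤ K → Q n := by
    intro n hn hK
    obtain ⟨t, ht, h⟩ := hT n hn hK
    refine follow x Q hQ h1 t n hn h fun i hi => ?_
    calc C^[i] n ≤ 8 ^ i * n := C_iter_le i hn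
      _ ≤ 8 ^ T * K := Nat.mul_le_mul (Nat.pow_le_pow_right (by norm_num) (hi.trans ht)) hK
      _ < c := hTc
  intro n
  induction n using Nat.strong_induction_on with
  | _ n ih =>
    intro hn
    by_cases hK : n ≤ K
    · exact hsmall n hn hK
    push Not at hK
    by_cases hn1 : n ≤ B1
    · exact hQ n hn (by rw [fx_of_mid x hK (by omega) (hsm n hn1)]; exact h1)
    push Not at hn1
    rcases walk (c := c) (K := K) (E := E) (p := p) (B := B) x n J with h | ⟨i, hi, h, hE⟩
    · by_cases hE : n % c ∈ E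
      · rcases drop hc h0 hreg hB x Q hm n hK hE with ⟨t, g1, g2⟩ | g
        · refine of_iter hc x Q hQ t n hn (ih _ ?_ g1)
          have h8 : 1 ≤ 8 ^ J := Nat.one_le_pow _ _ (by norm_num)
          have h9 : 2 * (n / c) ≤ n := by
            have e1 := Nat.div_add_mod n c
            have e2 : 2 * (n / c) ≤ c * (n / c) := Nat.mul_le_mul_right _ (by omega)
            omega
          omega
        · exact g
      · refine of_iter hc x Q hQ J n hn (ih _ ?_ (fx_iter_pos hc x J n hn))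
        rw [h]
        exact descent (hJ n hE) (by omega)
    · have hle : C^[i] n ≤ 8 ^ J * n :=
        (C_iter_le i hn).trans (Nat.mul_le_mul_right _ (Nat.pow_le_pow_right (by norm_num) hi.le))
      have hpos := C_iter_pos i hn
      refine of_iter hc x Q hQ i n hn ?_
      rw [h]
      by_cases hvK : C^[i] n ≤ K
      · exact hsmall _ hpos hvK
      push Not at hvK
      rcases drop hc h0 hreg hB x Q hm (C^[i] n) hvK hE with ⟨t, g1, g2⟩ | g
      · refine of_iter hc x Q hQ t _ hpos (ih _ ?_ g1)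
        have h9 : 2 * (C^[i] n / c) ≤ n := by
          have e1 : C^[i] n / c * c ≤ C^[i] n := Nat.div_mul_le_self _ _
          have e2 : C^[i] n / c * (2 * 8 ^ J) ≤ C^[i] n / c * c := Nat.mul_le_mul_left _ hJc
          have e3 : C^[i] n / c * (2 * 8 ^ J) ≤ 8 ^ J * n := (e2.trans e1).trans hle
          have e4 : 8 ^ J * (2 * (C^[i] n / c)) ≤ 8 ^ J * n := by
            calc 8 ^ J * (2 * (C^[i] n / c)) = C^[i] n / c * (2 * 8 ^ J) := by ring
              _ ≤ _ := e3
          exact Nat.le_of_mul_le_mul_left e4 (by positivity)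
        omega
      · exact g

end

section

variable {c K : ℕ} {E : Finset ℕ} {p : LP} {B : ℕ} (hc : 0 < c) (h0 : 0 ∈ E) (hp : p.ok)
  (hreg : ∀ r ∈ p.regs, r < B) (hB : 4 ≤ B) (f : List.Vector ℕ 3 → ℕ)
  (hf : ∀ σ : ℕ → ℕ, p.ev σ 3 = f (List.Vector.ofFn fun j : Fin 3 => σ j) ∧ ∀ r, r < 4 → r ≠ 3 → p.ev σ r = σ r)
  (hmono : ∀ x y k, f ⟨[y, x, k], rfl⟩ ≠ 0 → f ⟨[y, x, k + 1], rfl⟩ ≠ 0) (x : ℕ)

include hmono in
theorem mono_le {y k l : ℕ} (h : f ⟨[y, x, k], rfl⟩ ≠ 0) (hkl : k ≤ l) : f ⟨[y, x, l], rfl⟩ ≠ 0 := by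
  induction hkl with
  | refl => exact h
  | step _ ih => exact hmono x y _ ih

/-- a run that is not defined -/
theorem run_none {n m : ℕ} {d : ℕ × ℕ} (h : run (nx p B x) n d = none) (hm : n ≤ m) : run (nx p B x) m d = none := by
  induction hm with
  | refl => exact h
  | step _ ih => simp only [run]; rw [ih]; rfl

theorem le_cd (hc : 0 < c) (q N : ℕ) : N ≤ cd c p B q N := by
  unfold cd
  have hS := S_pos p B
  calc N ≤ (N - 1) + 0 + 1 := by omega
    _ ≤ S p B * (N - 1) + q + 1 := by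
      have := Nat.mul_le_mul_right (N - 1) hS
      omega
    _ ≤ c * (S p B * (N - 1) + q + 1) := Nat.le_mul_of_pos_left _ hc

theorem c_le_cd (q N : ℕ) : c ≤ cd c p B q N := Nat.le_mul_of_pos_right _ (Nat.succ_pos _)

theorem lt_of_val {N i : ℕ} (hN : N ≠ 0) (h : i ≤ val N 2) : i < N := by
  have h1 : pr 2 ^ i ∣ N := (Nat.Prime.pow_dvd_iff_le_factorization (pr_prime 2) hN).2 h
  calc i < 2 ^ i := Nat.lt_two_pow_self
    _ ≤ pr 2 ^ i := Nat.pow_le_pow_left (pr_prime 2).two_le i
    _ ≤ N := Nat.le_of_dvd (Nat.pos_of_ne_zero hN) h1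

include hc h0 hp hreg hB hf hmono in
/-- the machine leaves, or its values are unbounded -/
theorem machine_alt (q : ℕ) (hq : q ≤ hl p B) (N : ℕ) (hN : N ≠ 0) :
    (∃ n N', N' ≠ 0 ∧ run (nx p B x) n (q, N) = some (hl p B, N') ∧ N' ≤ N) ∨
      ∀ M, ∃ k, M < (fx c K E p B x)^[k] (cd c p B q N) := by
  obtain ⟨n, N1, h1, h2 | h2⟩ := reach p B x hp hreg hB q hq N hN
  · by_cases hT : ∃ k, f ⟨[val N1 0, x, k], rfl⟩ ≠ 0
    · left
      obtain ⟨k, hk⟩ := hT
      obtain ⟨m, N2, g1, g2, g3⟩ := halts p B x hp f hf k k N1 h1 (by omega)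
        fun l hl => mono_le f hmono x hk hl
      have g4 : run (nx p B x) (n + m) (q, N) = some (hl p B, N2) := by
        rw [FlatAux.run_add _ _ _ _ _ h2.1, g2]
      exact ⟨_, N2, g1, g4, le_of_same (run_same p B x hreg hB _ q N hN _ _ g4).2 hN g1 g3⟩
    · right
      intro M
      push Not at hT
      obtain ⟨m, N2, _, g1, g2, _, g3⟩ := grow p B x hp f hf N1 h1 hT M
      refine ⟨n + m, ?_⟩
      rw [iter_cd hc h0 hreg hB x q N hq hN (n + m) 0 N2 (by rw [FlatAux.run_add _ _ _ _ _ h2.1, g2])]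
      exact Nat.lt_of_lt_of_le (lt_of_val g1 g3) (le_cd hc 0 N2)
  · exact Or.inl ⟨n, N1, h1, h2.1, h2.2⟩

theorem val_start (y : ℕ) : val (pr 0 ^ y) 0 = y := by
  unfold val
  rw [(pr_prime 0).factorization_pow, Finsupp.single_eq_same]

include hc h0 hp hreg hB hf in
/-- a starting value that does not reach 1 -/
theorem not_total (hc1 : 1 < c) {y : ℕ} (hy : ∀ k, f ⟨[y, x, k], rfl⟩ = 0) (k : ℕ) :
    (fx c K E p B x)^[k] (cd c p B 0 (pr 0 ^ y)) ≠ 1 := by
  intro hk
  have hN : pr 0 ^ y ≠ 0 := pow_ne_zero _ (pr_prime 0).ne_zero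
  obtain ⟨m, N2, g0, g1, g2, _, _⟩ := grow p B x hp f hf (pr 0 ^ y) hN (by rw [val_start]; exact hy) k
  cases hr : run (nx p B x) k (0, pr 0 ^ y) with
  | none =>
    rw [run_none x hr g0] at g2
    simp at g2
  | some d =>
    obtain ⟨q', N'⟩ := d
    rw [iter_cd hc h0 hreg hB x 0 _ (Nat.zero_le _) hN k q' N' hr] at hk
    have := c_le_cd (c := c) (p := p) (B := B) q' N'
    omega

/-- all primes are cleared -/
theorem eq_one_of_same {N N' y : ℕ} (hB : 4 ≤ B) (hN : N = pr 0 ^ y) (hN' : N' ≠ 0) (h : Same B N N')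
    (h0 : ∀ r < B, val N' r = 0) : N' = 1 := by
  apply Nat.eq_of_factorization_eq hN' one_ne_zero
  intro l
  rw [Nat.factorization_one, Finsupp.zero_apply]
  by_cases hl : ∀ r < B, l ≠ pr r
  · rw [h l hl, hN, (pr_prime 0).factorization_pow, Finsupp.single_eq_of_ne (hl 0 (by omega))]
  · push Not at hl
    obtain ⟨r, hr, rfl⟩ := hl
    exact h0 r hr

include hc h0 hp hreg hB hf hmono in
/-- a starting value that reaches 1 -/
theorem reach_one {y k : ℕ} (hk : f ⟨[y, x, k], rfl⟩ ≠ 0) :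
    ∃ l, (fx c K E p B x)^[l] (cd c p B 0 (pr 0 ^ y)) = 1 := by
  have hN : pr 0 ^ y ≠ 0 := pow_ne_zero _ (pr_prime 0).ne_zero
  obtain ⟨m, N2, g1, g2, g3⟩ := halts p B x hp f hf k k (pr 0 ^ y) hN (by omega) (by
    rw [val_start]
    exact fun l hl => mono_le f hmono x hk hl)
  refine ⟨m + 1, ?_⟩
  rw [iter_exit hc h0 hreg hB x 0 _ (Nat.zero_le _) hN m N2 g2]
  exact eq_one_of_same hB rfl g1 (run_same p B x hreg hB m 0 _ hN _ _ g2).2 g3

end

end KakU
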