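import Pool.Agent.Lib.KakU.Run

/-!
# The machine that searches `k` with `T y x k ≠ 0`, started again and again

Registers: `0`: `y`, `1`: `x`, `2`: `k`, `3`: the value of `T`. Label `0`: clear register 1; label `2`: multiply by
`pr 1 ^ x`; label `3`: compute `T`; label `3 + size`: test; `+ 1`: increase `k`, go to `0`; `+ 2`: clear all registers; the
last label is the exit.
-/

set_option autoImplicit false

namespace KakU

open CPM CPM.FlatAux

/-- a primitive recursive description of a recursively enumerable relation, monotone in the last variable -/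
theorem exists_T_mono (R : ℕ → ℕ → Prop) (hR : REPred fun p : ℕ × ℕ => R p.1 p.2) :
    ∃ f : List.Vector ℕ 3 → ℕ, Nat.Primrec' f ∧ (∀ x y, (R x y ↔ ∃ k, f ⟨[y, x, k], rfl⟩ ≠ 0)) ∧
      ∀ x y k, f ⟨[y, x, k], rfl⟩ ≠ 0 → f ⟨[y, x, k + 1], rfl⟩ ≠ 0 := by
  obtain ⟨c, hc⟩ := Nat.Partrec.Code.exists_code.1 hR
  have key : ∀ x y, (R x y ↔ ∃ k, (Nat.Partrec.Code.evaln k c (Nat.pair x y)).isSome) := by
    intro x y
    have h1 : R x y ↔ (c.eval (Nat.pair x y)).Dom := by
      rw [hc]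
      simp [Part.assert, Part.bind]
    rw [h1, Part.dom_iff_mem]
    constructor
    · rintro ⟨v, hv⟩
      obtain ⟨k, hk⟩ := Nat.Partrec.Code.evaln_complete.1 hv
      exact ⟨k, Option.isSome_iff_exists.2 ⟨v, hk⟩⟩
    · rintro ⟨k, hk⟩
      obtain ⟨v, hv⟩ := Option.isSome_iff_exists.1 hk
      exact ⟨v, Nat.Partrec.Code.evaln_complete.2 ⟨k, hv⟩⟩
  have hval : ∀ x y k, ((bif (Nat.Partrec.Code.evaln (List.Vector.get (⟨[y, x, k], rfl⟩ : List.Vector ℕ 3) 2) c
      (Nat.pair (List.Vector.get (⟨[y, x, k], rfl⟩ : List.Vector ℕ 3) 1)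
        (List.Vector.get (⟨[y, x, k], rfl⟩ : List.Vector ℕ 3) 0))).isSome then 1 else 0 : ℕ) ≠ 0) ↔
      (Nat.Partrec.Code.evaln k c (Nat.pair x y)).isSome := by
    intro x y k
    have e2 : List.Vector.get (⟨[y, x, k], rfl⟩ : List.Vector ℕ 3) 2 = k := rfl
    have e1 : List.Vector.get (⟨[y, x, k], rfl⟩ : List.Vector ℕ 3) 1 = x := rfl
    have e0 : List.Vector.get (⟨[y, x, k], rfl⟩ : List.Vector ℕ 3) 0 = y := rfl
    rw [e2, e1, e0]
    by_cases h : (Nat.Partrec.Code.evaln k c (Nat.pair x y)).isSome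
    · simp [h]
    · simp only [Bool.not_eq_true] at h
      simp [h]
  refine ⟨fun v => bif (Nat.Partrec.Code.evaln (v.get 2) c (Nat.pair (v.get 1) (v.get 0))).isSome then 1 else 0,
    ?_, ?_, ?_⟩
  · apply Nat.Primrec'.of_prim
    have hg : ∀ i : Fin 3, Primrec fun v : List.Vector ℕ 3 => v.get i := fun i =>
      Primrec.vector_get.comp Primrec.id (Primrec.const i)
    have he : Primrec fun v : List.Vector ℕ 3 =>
        Nat.Partrec.Code.evaln (v.get 2) c (Nat.pair (v.get 1) (v.get 0)) :=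
      Nat.Partrec.Code.primrec_evaln.comp
        (((hg 2).pair (Primrec.const c)).pair (Primrec₂.natPair.comp (hg 1) (hg 0)))
    exact Primrec.cond (Primrec.option_isSome.comp he) (Primrec.const 1) (Primrec.const 0)
  · intro x y
    rw [key]
    exact exists_congr fun k => (hval x y k).symm
  · intro x y k h
    refine (hval x y (k + 1)).2 ?_
    have h1 := (hval x y k).1 h
    obtain ⟨v, hv⟩ := Option.isSome_iff_exists.1 h1
    exact Option.isSome_iff_exists.2 ⟨v, Nat.Partrec.Code.evaln_mono (Nat.le_succ k) hv⟩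

/-- the exit label -/
def hl (p : LP) (B : ℕ) : ℕ := 5 + p.size + (clrAll B).size

/-- the machine -/
noncomputable def mach (p : LP) (B : ℕ) (i : ℕ) : PI ℕ :=
  if i < 2 then ((LP.clr 1).code 0 2).getD i .halt
  else if i < 3 then .halt
  else if i < 3 + p.size then (p.code 3 (3 + p.size)).getD (i - 3) .halt
  else if i = 3 + p.size then .dec (pr 3) (4 + p.size) (5 + p.size)
  else if i = 4 + p.size then .inc (pr 2) 0
  else if i < hl p B then ((clrAll B).code (5 + p.size) (hl p B)).getD (i - (5 + p.size)) .halt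
  else .halt

/-- one step, with the parameter `x` -/
noncomputable def nx (p : LP) (B x : ℕ) (c : ℕ × ℕ) : Option (ℕ × ℕ) :=
  if c.1 = 2 then some (3, pr 1 ^ x * c.2) else pex (mach p B c.1) c.2

theorem mach_pr (p : LP) (B : ℕ) (hp : ∀ r ∈ p.regs, r < B) (hB : 4 ≤ B) (i : ℕ) :
    (mach p B i).pr = 1 ∨ ∃ r < B, (mach p B i).pr = pr r := by
  unfold mach
  split_ifs
  · rcases code_pr (LP.clr 1) 0 2 i with h | ⟨r, hr, h⟩
    · exact Or.inl h
    · rw [LP.clr_regs, Finset.mem_singleton] at hr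
      exact Or.inr ⟨r, by omega, h⟩
  · exact Or.inl rfl
  · rcases code_pr p 3 (3 + p.size) (i - 3) with h | ⟨r, hr, h⟩
    · exact Or.inl h
    · exact Or.inr ⟨r, hp r hr, h⟩
  · exact Or.inr ⟨3, by omega, rfl⟩
  · exact Or.inr ⟨2, by omega, rfl⟩
  · rcases code_pr (clrAll B) (5 + p.size) (hl p B) (i - (5 + p.size)) with h | ⟨r, hr, h⟩
    · exact Or.inl h
    · exact Or.inr ⟨r, clrAll_regs B r hr, h⟩
  · exact Or.inl rfl

theorem mach_tgt (p : LP) (B i : ℕ) (b : Bool) (q : ℕ) (h : (mach p B i).tgt b = some q) :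
    q ≤ hl p B := by
  have hh : hl p B = 5 + p.size + (clrAll B).size := rfl
  unfold mach at h
  split_ifs at h with h1 h2 h3 h4 h5 h6
  · rcases LP.code_tgt _ _ _ _ _ _ h with h | h
    · omega
    · have e : (LP.clr 1).size = 2 := rfl
      omega
  · cases b <;> simp [PI.tgt] at h
  · rcases LP.code_tgt _ _ _ _ _ _ h with h | h <;> omega
  · cases b <;> simp [PI.tgt] at h <;> omega
  · cases b <;> simp [PI.tgt] at h <;> omega
  · rcases LP.code_tgt _ _ _ _ _ _ h with h | h <;> omega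
  · cases b <;> simp [PI.tgt] at h

section

variable (p : LP) (B x : ℕ)

theorem nx_two (N : ℕ) : nx p B x (2, N) = some (3, pr 1 ^ x * N) := by
  unfold nx
  rw [if_pos rfl]

theorem nx_clr1 : ∀ i < (LP.clr 1).size, ∀ N, nx p B x (0 + i, N) = pex (((LP.clr 1).code 0 2).getD i .halt) N := by
  intro i hi N
  have e : (LP.clr 1).size = 2 := rfl
  unfold nx mach
  rw [zero_add, if_neg (by simp only; omega), if_pos (by simp only; omega)]

theorem nx_p : ∀ i < p.size, ∀ N, nx p B x (3 + i, N) = pex ((p.code 3 (3 + p.size)).getD i .halt) N := by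
  intro i hi N
  unfold nx mach
  rw [if_neg (by simp only; omega), if_neg (by simp only; omega), if_neg (by simp only; omega),
    if_pos (by simp only; omega)]
  simp only [Nat.add_sub_cancel_left]

theorem nx_D (N : ℕ) : nx p B x (3 + p.size, N) = pex (.dec (pr 3) (4 + p.size) (5 + p.size)) N := by
  unfold nx mach
  rw [if_neg (by simp only; omega), if_neg (by simp only; omega), if_neg (by simp only; omega),
    if_neg (by simp only; omega), if_pos rfl]

theorem nx_D1 (N : ℕ) : nx p B x (4 + p.size, N) = some (0, pr 2 * N) := by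
  unfold nx mach
  rw [if_neg (by simp only; omega), if_neg (by simp only; omega), if_neg (by simp only; omega),
    if_neg (by simp only; omega), if_neg (by simp only; omega), if_pos rfl]
  rfl

theorem nx_clr : ∀ i < (clrAll B).size, ∀ N,
    nx p B x (5 + p.size + i, N) = pex (((clrAll B).code (5 + p.size) (hl p B)).getD i .halt) N := by
  intro i hi N
  have hh : hl p B = 5 + p.size + (clrAll B).size := rfl
  unfold nx mach
  rw [if_neg (by simp only; omega), if_neg (by simp only; omega), if_neg (by simp only; omega),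
    if_neg (by simp only; omega), if_neg (by simp only; omega), if_neg (by simp only; omega),
    if_pos (by simp only; omega)]
  simp only [Nat.add_sub_cancel_left]

theorem nx_H (N : ℕ) : nx p B x (hl p B, N) = none := by
  have hh : hl p B = 5 + p.size + (clrAll B).size := rfl
  have hs := LP.size_pos (clrAll B)
  unfold nx mach
  rw [if_neg (by simp only; omega), if_neg (by simp only; omega), if_neg (by simp only; omega),
    if_neg (by simp only; omega), if_neg (by simp only; omega), if_neg (by simp only; omega),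
    if_neg (by simp only; omega)]
  rfl

variable (hp : p.ok) (hreg : ∀ r ∈ p.regs, r < B) (hB : 4 ≤ B)

include hreg hB in
/-- invariants of a run -/
theorem run_same (n : ℕ) (q N : ℕ) (hN : N ≠ 0) (q' N' : ℕ) (h : run (nx p B x) n (q, N) = some (q', N')) :
    N' ≠ 0 ∧ Same B N N' := by
  induction n generalizing q' N' with
  | zero =>
    simp only [run, Option.some.injEq, Prod.mk.injEq] at h
    rw [← h.2]
    exact ⟨hN, Same.refl B N⟩
  | succ n ih =>
    simp only [run] at h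
    cases hr : run (nx p B x) n (q, N) with
    | none => rw [hr] at h; simp at h
    | some c =>
      obtain ⟨q1, N1⟩ := c
      rw [hr, Option.bind_some] at h
      obtain ⟨h1, h2⟩ := ih q1 N1 hr
      unfold nx at h
      split_ifs at h with h3
      · simp only [Option.some.injEq, Prod.mk.injEq] at h
        rw [← h.2]
        exact ⟨Nat.mul_ne_zero (pow_ne_zero _ (pr_prime 1).ne_zero) h1,
          h2.trans (same_pow_mul x (by omega) h1)⟩
      · obtain ⟨h4, h5⟩ := pex_same (mach_pr p B hreg hB q1) h1 h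
        exact ⟨h4, h2.trans h5⟩

include hp in
/-- from label 3 to the test -/
theorem run_p (N : ℕ) (hN : N ≠ 0) :
    ∃ n N', run (nx p B x) n (3, N) = some (3 + p.size, N') ∧ N' ≠ 0 ∧ val N' = p.ev (val N) := by
  obtain ⟨n, N', h1, h2, h3, _⟩ := code_run p hp (nx p B x) 3 (3 + p.size) (nx_p p B x) N hN
  exact ⟨n, N', h1, h2, h3⟩

/-- the last part -/
theorem run_clr (N : ℕ) (hN : N ≠ 0) :
    ∃ n N', run (nx p B x) n (5 + p.size, N) = some (hl p B, N') ∧ N' ≠ 0 ∧ ∀ r < B, val N' r = 0 := by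
  obtain ⟨n, N', h1, h2, h3, _⟩ := code_run (clrAll B) (clrAll_ok B) (nx p B x) (5 + p.size) (hl p B)
    (nx_clr p B x) N hN
  refine ⟨n, N', h1, h2, fun r hr => ?_⟩
  rw [h3]
  exact clrAll_ev B _ r hr

theorem run_one {q N q' N' : ℕ} (h : nx p B x (q, N) = some (q', N')) : run (nx p B x) 1 (q, N) = some (q', N') := by
  simp [run, h]

theorem run_test_no (N : ℕ) (h : ¬ pr 3 ∣ N) : run (nx p B x) 2 (3 + p.size, N) = some (0, pr 2 * N) := by
  have h1 : run (nx p B x) 1 (3 + p.size, N) = some (4 + p.size, N) := by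
    apply run_one
    rw [nx_D]
    simp only [pex, if_neg h]
  have h2 : run (nx p B x) 1 (4 + p.size, N) = some (0, pr 2 * N) := run_one p B x (nx_D1 p B x N)
  exact (FlatAux.run_add _ 1 1 _ _ h1).trans h2

theorem run_test_yes (N : ℕ) (h : pr 3 ∣ N) : run (nx p B x) 1 (3 + p.size, N) = some (5 + p.size, N / pr 3) := by
  apply run_one
  rw [nx_D]
  simp only [pex, if_pos h]

/-- from the test -/
theorem test_any (N : ℕ) (hN : N ≠ 0) : ∃ n N', N' ≠ 0 ∧ (run (nx p B x) n (3 + p.size, N) = some (0, N') ∨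
    (run (nx p B x) n (3 + p.size, N) = some (hl p B, N') ∧ ∀ r < B, val N' r = 0)) := by
  by_cases h : pr 3 ∣ N
  · obtain ⟨n, N', h1, h2, h3⟩ := run_clr p B x (N / pr 3) (div_ne_zero' h hN)
    refine ⟨1 + n, N', h2, Or.inr ⟨?_, h3⟩⟩
    rw [FlatAux.run_add _ _ _ _ _ (run_test_yes p B x N h), h1]
  · exact ⟨2, _, Nat.mul_ne_zero (pr_prime 2).ne_zero hN, Or.inl (run_test_no p B x N h)⟩

include hp hreg hB in
/-- from everywhere to label 0 or to the exit -/
theorem reach (q : ℕ) (hq : q ≤ hl p B) (N : ℕ) (hN : N ≠ 0) : ∃ n N', N' ≠ 0 ∧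
    ((run (nx p B x) n (q, N) = some (0, N') ∧ Same B N N') ∨
      (run (nx p B x) n (q, N) = some (hl p B, N') ∧ N' ≤ N)) := by
  have hh : hl p B = 5 + p.size + (clrAll B).size := rfl
  -- from the test
  have hD : ∀ n0 N0, run (nx p B x) n0 (q, N) = some (3 + p.size, N0) → ∃ n N', N' ≠ 0 ∧
    ((run (nx p B x) n (q, N) = some (0, N') ∧ Same B N N') ∨
      (run (nx p B x) n (q, N) = some (hl p B, N') ∧ N' ≤ N)) := by
    intro n0 N0 h0
    obtain ⟨h1, h2⟩ := run_same p B x hreg hB n0 q N hN _ _ h0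
    obtain ⟨n, N', h3, h4⟩ := test_any p B x N0 h1
    have e : ∀ c, run (nx p B x) n (3 + p.size, N0) = some c → run (nx p B x) (n0 + n) (q, N) = some c := by
      intro c hc
      rw [FlatAux.run_add _ _ _ _ _ h0, hc]
    refine ⟨n0 + n, N', h3, ?_⟩
    rcases h4 with h4 | ⟨h4, h5⟩
    · exact Or.inl ⟨e _ h4, (run_same p B x hreg hB _ q N hN _ _ (e _ h4)).2⟩
    · exact Or.inr ⟨e _ h4, le_of_same (run_same p B x hreg hB _ q N hN _ _ (e _ h4)).2 hN h3 h5⟩
  -- from label 3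
  have h3 : ∀ n0 N0, run (nx p B x) n0 (q, N) = some (3, N0) → ∃ n N', N' ≠ 0 ∧
    ((run (nx p B x) n (q, N) = some (0, N') ∧ Same B N N') ∨
      (run (nx p B x) n (q, N) = some (hl p B, N') ∧ N' ≤ N)) := by
    intro n0 N0 h0
    obtain ⟨h1, h2⟩ := run_same p B x hreg hB n0 q N hN _ _ h0
    obtain ⟨n, N', h4, h5, _⟩ := run_p p B x hp N0 h1
    exact hD (n0 + n) N' (by rw [FlatAux.run_add _ _ _ _ _ h0, h4])
  -- from label 2
  have h2 : ∀ n0 N0, run (nx p B x) n0 (q, N) = some (2, N0) → ∃ n N', N' ≠ 0 ∧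
    ((run (nx p B x) n (q, N) = some (0, N') ∧ Same B N N') ∨
      (run (nx p B x) n (q, N) = some (hl p B, N') ∧ N' ≤ N)) := by
    intro n0 N0 h0
    exact h3 (n0 + 1) _ (by rw [FlatAux.run_add _ _ _ _ _ h0, run_one p B x (nx_two p B x N0)])
  by_cases c1 : q < 2
  · obtain ⟨n, N', h4, _, _⟩ := code_any (LP.clr 1) (LP.clr_ok 1) (nx p B x) 0 2 (nx_clr1 p B x) q c1 N hN
    rw [zero_add] at h4
    exact h2 n N' h4
  by_cases c2 : q = 2
  · subst c2
    exact h2 0 N rfl
  by_cases c3 : q < 3 + p.size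
  · obtain ⟨n, N', h4, _, _⟩ := code_any p hp (nx p B x) 3 (3 + p.size) (nx_p p B x) (q - 3) (by omega) N hN
    have e : 3 + (q - 3) = q := by omega
    rw [e] at h4
    exact hD n N' h4
  by_cases c4 : q = 3 + p.size
  · subst c4
    exact hD 0 N rfl
  by_cases c5 : q = 4 + p.size
  · subst c5
    refine ⟨1, pr 2 * N, Nat.mul_ne_zero (pr_prime 2).ne_zero hN, Or.inl ⟨run_one p B x (nx_D1 p B x N), ?_⟩⟩
    exact same_mul (by omega) hN
  by_cases c6 : q < hl p B
  · obtain ⟨n, N', h4, h5, h6⟩ := code_any (clrAll B) (clrAll_ok B) (nx p B x) (5 + p.size) (hl p B)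
      (nx_clr p B x) (q - (5 + p.size)) (by omega) N hN
    have e : 5 + p.size + (q - (5 + p.size)) = q := by omega
    rw [e] at h4
    exact ⟨n, N', h5, Or.inr ⟨h4, h6 (clrAll_NI B)⟩⟩
  · have e : q = hl p B := by omega
    subst e
    exact ⟨0, N, hN, Or.inr ⟨rfl, le_rfl⟩⟩

variable (f : List.Vector ℕ 3 → ℕ)
  (hf : ∀ σ : ℕ → ℕ, p.ev σ 3 = f (List.Vector.ofFn fun j : Fin 3 => σ j) ∧ ∀ r, r < 4 → r ≠ 3 → p.ev σ r = σ r)

theorem val_mul' {N r s : ℕ} (h : N ≠ 0) : val (pr s * N) r = val N r + if r = s then 1 else 0 := by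
  rw [FlatAux.val_mul s N h]
  by_cases hrs : r = s
  · rw [hrs, Function.update_self, if_pos rfl]
  · rw [Function.update_of_ne hrs, if_neg hrs, add_zero]

theorem val_pow_mul {N r s x : ℕ} (h : N ≠ 0) : val (pr s ^ x * N) r = val N r + if r = s then x else 0 := by
  induction x with
  | zero => simp
  | succ x ih =>
    have e : pr s ^ (x + 1) * N = pr s * (pr s ^ x * N) := by ring
    rw [e, val_mul' (Nat.mul_ne_zero (pow_ne_zero _ (pr_prime s).ne_zero) h), ih]
    split_ifs <;> omega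

include hp hf in
/-- from label 0 to the test -/
theorem round (N : ℕ) (hN : N ≠ 0) : ∃ n N', run (nx p B x) n (0, N) = some (3 + p.size, N') ∧ N' ≠ 0 ∧
    val N' 0 = val N 0 ∧ val N' 2 = val N 2 ∧ val N' 3 = f ⟨[val N 0, x, val N 2], rfl⟩ := by
  obtain ⟨n1, N1, h1, h2, h3, _⟩ := code_run (LP.clr 1) (LP.clr_ok 1) (nx p B x) 0 2 (nx_clr1 p B x) N hN
  rw [LP.clr_ev] at h3
  have h4 : pr 1 ^ x * N1 ≠ 0 := Nat.mul_ne_zero (pow_ne_zero _ (pr_prime 1).ne_zero) h2
  obtain ⟨n2, N2, g1, g2, g3⟩ := run_p p B x hp _ h4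
  have e0 : val (pr 1 ^ x * N1) 0 = val N 0 := by
    rw [val_pow_mul h2, h3]; simp
  have e1 : val (pr 1 ^ x * N1) 1 = x := by
    rw [val_pow_mul h2, h3]; simp
  have e2 : val (pr 1 ^ x * N1) 2 = val N 2 := by
    rw [val_pow_mul h2, h3]; simp
  refine ⟨n1 + 1 + n2, N2, ?_, g2, ?_, ?_, ?_⟩
  · have h5 : run (nx p B x) (n1 + 1) (0, N) = some (3, pr 1 ^ x * N1) := by
      rw [FlatAux.run_add _ _ _ _ _ h1, run_one p B x (nx_two p B x N1)]
    rw [FlatAux.run_add _ _ _ _ _ h5, g1]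
  · rw [g3, (hf _).2 0 (by omega) (by omega), e0]
  · rw [g3, (hf _).2 2 (by omega) (by omega), e2]
  · rw [g3, (hf _).1]
    congr 1
    apply List.Vector.ext
    intro m
    rw [List.Vector.get_ofFn]
    fin_cases m
    · exact e0
    · exact e1
    · exact e2

theorem dvd_iff_val {N r : ℕ} (hN : N ≠ 0) : pr r ∣ N ↔ val N r ≠ 0 := by
  have := val_zero_iff r N hN
  tauto

include hp hf in
/-- a round that ends in the exit -/
theorem main_yes (N : ℕ) (hN : N ≠ 0) (h : f ⟨[val N 0, x, val N 2], rfl⟩ ≠ 0) :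
    ∃ n N', N' ≠ 0 ∧ run (nx p B x) n (0, N) = some (hl p B, N') ∧ ∀ r < B, val N' r = 0 := by
  obtain ⟨n, N1, h1, h2, h3, h4, h5⟩ := round p B x hp f hf N hN
  have h6 : pr 3 ∣ N1 := (dvd_iff_val h2).2 (by rw [h5]; exact h)
  obtain ⟨m, N2, g1, g2, g3⟩ := run_clr p B x (N1 / pr 3) (div_ne_zero' h6 h2)
  have g4 : run (nx p B x) (n + 1 + m) (0, N) = some (hl p B, N2) := by
    have g5 : run (nx p B x) (n + 1) (0, N) = some (5 + p.size, N1 / pr 3) := by
      rw [FlatAux.run_add _ _ _ _ _ h1, run_test_yes p B x N1 h6]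
    rw [FlatAux.run_add _ _ _ _ _ g5, g1]
  exact ⟨_, N2, g2, g4, g3⟩

include hp hf in
/-- a round that starts again; it has at least one step -/
theorem main_no (N : ℕ) (hN : N ≠ 0) (h : f ⟨[val N 0, x, val N 2], rfl⟩ = 0) :
    ∃ n N', N' ≠ 0 ∧ run (nx p B x) (n + 1) (0, N) = some (0, N') ∧ val N' 0 = val N 0 ∧
      val N' 2 = val N 2 + 1 := by
  obtain ⟨n, N1, h1, h2, h3, h4, h5⟩ := round p B x hp f hf N hN
  have h6 : ¬ pr 3 ∣ N1 := fun hd => (dvd_iff_val h2).1 hd (by rw [h5]; exact h)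
  refine ⟨n + 1, pr 2 * N1, Nat.mul_ne_zero (pr_prime 2).ne_zero h2, ?_, ?_, ?_⟩
  · rw [show n + 1 + 1 = n + 2 from rfl, FlatAux.run_add _ _ _ _ _ h1, run_test_no p B x N1 h6]
  · rw [val_mul' h2, h3]; simp
  · rw [val_mul' h2, h4]; simp

include hp hf in
/-- it halts -/
theorem halts (K : ℕ) (d : ℕ) : ∀ N, N ≠ 0 → K ≤ val N 2 + d →
    (∀ k, K ≤ k → f ⟨[val N 0, x, k], rfl⟩ ≠ 0) →
    ∃ n N', N' ≠ 0 ∧ run (nx p B x) n (0, N) = some (hl p B, N') ∧ ∀ r < B, val N' r = 0 := by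
  induction d with
  | zero =>
    intro N hN hK h
    exact main_yes p B x hp f hf N hN (h _ (by omega))
  | succ d ih =>
    intro N hN hK h
    by_cases h0 : f ⟨[val N 0, x, val N 2], rfl⟩ = 0
    · obtain ⟨n, N1, h1, h2, h3, h4⟩ := main_no p B x hp f hf N hN h0
      obtain ⟨m, N2, g1, g2, g3⟩ := ih N1 h1 (by omega) (by rw [h3]; exact h)
      refine ⟨n + 1 + m, N2, g1, ?_, g3⟩
      rw [FlatAux.run_add _ _ _ _ _ h2, g2]
    · exact main_yes p B x hp f hf N hN h0

include hp hf hreg hB in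
/-- **If `T` is never `0` for ever, every configuration reaches the exit, with a value that is not larger.** -/
theorem exits (hT : ∀ y, ∃ K, ∀ k, K ≤ k → f ⟨[y, x, k], rfl⟩ ≠ 0) (q : ℕ) (hq : q ≤ hl p B) (N : ℕ) (hN : N ≠ 0) :
    ∃ n N', N' ≠ 0 ∧ run (nx p B x) n (q, N) = some (hl p B, N') ∧ N' ≤ N := by
  obtain ⟨n, N1, h1, h2⟩ := reach p B x hp hreg hB q hq N hN
  rcases h2 with ⟨h2, h3⟩ | ⟨h2, h3⟩
  · obtain ⟨K, hK⟩ := hT (val N1 0)
    obtain ⟨m, N2, g1, g2, g3⟩ := halts p B x hp f hf K K N1 h1 (by omega) hK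
    have g4 : run (nx p B x) (n + m) (q, N) = some (hl p B, N2) := by
      rw [FlatAux.run_add _ _ _ _ _ h2, g2]
    exact ⟨_, N2, g1, g4, le_of_same (run_same p B x hreg hB _ q N hN _ _ g4).2 hN g1 g3⟩
  · exact ⟨n, N1, h1, h2, h3⟩

include hp hf in
/-- if `T y x k = 0` for all `k`, the run comes back to label 0 for ever, with larger and larger `k` -/
theorem grow (N : ℕ) (hN : N ≠ 0) (h : ∀ k, f ⟨[val N 0, x, k], rfl⟩ = 0) (i : ℕ) :
    ∃ n N', i ≤ n ∧ N' ≠ 0 ∧ run (nx p B x) n (0, N) = some (0, N') ∧ val N' 0 = val N 0 ∧ i ≤ val N' 2 := by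
  induction i with
  | zero => exact ⟨0, N, le_rfl, hN, rfl, rfl, Nat.zero_le _⟩
  | succ i ih =>
    obtain ⟨n, N1, h1, h2, h3, h4, h5⟩ := ih
    obtain ⟨m, N2, g1, g2, g3, g4⟩ := main_no p B x hp f hf N1 h2 (by rw [h4]; exact h _)
    refine ⟨n + (m + 1), N2, by omega, g1, ?_, by rw [g3, h4], by omega⟩
    rw [FlatAux.run_add _ _ _ _ _ h3, g2]

end

end KakU
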