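import Pool.Agent.Lib.KakU.Mach
import Pool.Agent.Lib.KakU.Dens
import Pool.Agent.Lib.CPM.Aff

/-!
# The map with the machine in the class `0 (mod c)`

`fx` agrees with `C` outside the classes of `E`; on the class of `0` it simulates the machine, on the other classes of `E` it
is `n ↦ n / c + 1` or `n ↦ C (n % c) + n / c`.
-/

set_option autoImplicit false

namespace KakU

open CPM CPM.FlatAux

/-- number of labels -/
def S (p : LP) (B : ℕ) : ℕ := hl p B + 1

/-- product of the primes -/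
noncomputable def D (B : ℕ) : ℕ := ∏ r ∈ Finset.range B, pr r

/-- the machine part -/
noncomputable def g (c : ℕ) (p : LP) (B x k : ℕ) : ℕ :=
  match nx p B x ((k - 1) % S p B, (k - 1) / S p B + 1) with
  | some (q', N') => c * (S p B * (N' - 1) + q' + 1)
  | none => (k - 1) / S p B + 1

/-- the map -/
noncomputable def fx (c K : ℕ) (E : Finset ℕ) (p : LP) (B x n : ℕ) : ℕ :=
  if n % c ∉ E then C n else if n % c = 0 then g c p B x (n / c)
  else if n % c ≤ K then C (n % c) + n / c else n / c + 1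

theorem D_pos (B : ℕ) : 0 < D B := Finset.prod_pos fun r _ => (pr_prime r).pos

theorem dvd_D {B r : ℕ} (h : r < B) : pr r ∣ D B := Finset.dvd_prod_of_mem _ (Finset.mem_range.2 h)

theorem S_pos (p : LP) (B : ℕ) : 0 < S p B := Nat.succ_pos _

theorem C_aff (n : ℕ) : ∃ a, 0 < a ∧ ∀ s, C (n + 30 * s) = C n + a * s := by
  by_cases h2 : 2 ∣ n
  · refine ⟨15, by norm_num, fun s => ?_⟩
    unfold C
    rw [if_pos h2, if_pos ((dvd_add_mul30 2 (by norm_num) n s).2 h2)]
    omega
  by_cases h3 : 3 ∣ n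
  · refine ⟨10, by norm_num, fun s => ?_⟩
    unfold C
    rw [if_neg h2, if_pos h3, if_neg (mt (dvd_add_mul30 2 (by norm_num) n s).1 h2),
      if_pos ((dvd_add_mul30 3 (by norm_num) n s).2 h3)]
    omega
  by_cases h5 : 5 ∣ n
  · refine ⟨6, by norm_num, fun s => ?_⟩
    unfold C
    rw [if_neg h2, if_neg h3, if_pos h5, if_neg (mt (dvd_add_mul30 2 (by norm_num) n s).1 h2),
      if_neg (mt (dvd_add_mul30 3 (by norm_num) n s).1 h3), if_pos ((dvd_add_mul30 5 (by norm_num) n s).2 h5)]
    omega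
  · refine ⟨210, by norm_num, fun s => ?_⟩
    unfold C
    rw [if_neg h2, if_neg h3, if_neg h5, if_neg (mt (dvd_add_mul30 2 (by norm_num) n s).1 h2),
      if_neg (mt (dvd_add_mul30 3 (by norm_num) n s).1 h3), if_neg (mt (dvd_add_mul30 5 (by norm_num) n s).1 h5)]
    omega

/-- one step and the shift by the product of the primes -/
theorem nx_shift (p : LP) (B x : ℕ) (hreg : ∀ r ∈ p.regs, r < B) (hB : 4 ≤ B) (q N : ℕ) (hN : N ≠ 0) :
    (∀ j, nx p B x (q, N + D B * j) = none) ∨
      ∃ q' N' b, 0 < b ∧ N' ≠ 0 ∧ ∀ j, nx p B x (q, N + D B * j) = some (q', N' + b * j) := by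
  have hD := D_pos B
  by_cases h2 : q = 2
  · subst h2
    have hP : 0 < pr 1 ^ x := pow_pos (pr_prime 1).pos x
    refine Or.inr ⟨3, pr 1 ^ x * N, pr 1 ^ x * D B, Nat.mul_pos hP hD, Nat.mul_ne_zero hP.ne' hN, fun j => ?_⟩
    rw [nx_two]
    congr 2
    ring
  · have e : ∀ M, nx p B x (q, M) = pex (mach p B q) M := fun M => if_neg h2
    have hpr := mach_pr p B hreg hB q
    simp only [e]
    cases hi : mach p B q with
    | halt => exact Or.inl fun j => rfl
    | go q' => exact Or.inr ⟨q', N, D B, hD, hN, fun j => rfl⟩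
    | inc P q' =>
      rw [hi] at hpr
      have hP : 0 < P := by
        rcases hpr with h | ⟨r, _, h⟩
        · have : P = 1 := h
          omega
        · have : P = pr r := h
          rw [this]
          exact (pr_prime r).pos
      refine Or.inr ⟨q', P * N, P * D B, Nat.mul_pos hP hD, Nat.mul_ne_zero hP.ne' hN, fun j => ?_⟩
      show some (q', P * (N + D B * j)) = _
      congr 2
      ring
    | dec P q0 q1 =>
      rw [hi] at hpr
      have hP : 0 < P ∧ P ∣ D B := by
        rcases hpr with h | ⟨r, hr, h⟩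
        · have : P = 1 := h
          rw [this]
          exact ⟨one_pos, one_dvd _⟩
        · have : P = pr r := h
          rw [this]
          exact ⟨(pr_prime r).pos, dvd_D hr⟩
      obtain ⟨hP, d, hd⟩ := hP
      have hdiv : ∀ j, P ∣ N + D B * j ↔ P ∣ N := fun j => by
        rw [hd, mul_assoc]
        exact (Nat.dvd_add_left (Nat.dvd_mul_right P (d * j)))
      by_cases h : P ∣ N
      · obtain ⟨M, hM⟩ := h
        refine Or.inr ⟨q1, M, d, ?_, ?_, fun j => ?_⟩
        · rcases Nat.eq_zero_or_pos d with h0 | h0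
          · rw [h0, mul_zero] at hd
            omega
          · exact h0
        · rintro rfl
          rw [mul_zero] at hM
          exact hN hM
        · show (if P ∣ N + D B * j then some (q1, (N + D B * j) / P) else some (q0, N + D B * j)) = _
          rw [if_pos ((hdiv j).2 ⟨M, hM⟩), hM, hd, mul_assoc, ← mul_add, Nat.mul_div_cancel_left _ hP]
      · refine Or.inr ⟨q0, N, D B, hD, hN, fun j => ?_⟩
        show (if P ∣ N + D B * j then some (q1, (N + D B * j) / P) else some (q0, N + D B * j)) = _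
        rw [if_neg (mt (hdiv j).1 h)]

theorem g_pos {c : ℕ} (hc : 0 < c) (p : LP) (B x k : ℕ) : 0 < g c p B x k := by
  unfold g
  split
  · exact Nat.mul_pos hc (Nat.succ_pos _)
  · exact Nat.succ_pos _

theorem g_aff {c : ℕ} (hc : 0 < c) (p : LP) (B x : ℕ) (hreg : ∀ r ∈ p.regs, r < B) (hB : 4 ≤ B) (k : ℕ)
    (hk : 0 < k) : ∃ a, 0 < a ∧ ∀ j, g c p B x (k + S p B * D B * j) = g c p B x k + a * j := by
  have hS := S_pos p B
  have e1 : ∀ j, (k + S p B * D B * j - 1) % S p B = (k - 1) % S p B := by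
    intro j
    have : k + S p B * D B * j - 1 = (k - 1) + S p B * (D B * j) := by
      rw [← mul_assoc]
      omega
    rw [this, Nat.add_mul_mod_self_left]
  have e2 : ∀ j, (k + S p B * D B * j - 1) / S p B + 1 = (k - 1) / S p B + 1 + D B * j := by
    intro j
    have : k + S p B * D B * j - 1 = (k - 1) + S p B * (D B * j) := by
      rw [← mul_assoc]
      omega
    rw [this, Nat.add_mul_div_left _ _ hS]
    omega
  rcases nx_shift p B x hreg hB ((k - 1) % S p B) ((k - 1) / S p B + 1) (Nat.succ_ne_zero _) with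
    h | ⟨q', N', b, hb, hN', h⟩
  · refine ⟨D B, D_pos B, fun j => ?_⟩
    have h0 := h 0
    rw [mul_zero, add_zero] at h0
    unfold g
    rw [e1, e2, h j, h0]
  · refine ⟨c * (S p B * b), Nat.mul_pos hc (Nat.mul_pos hS hb), fun j => ?_⟩
    have h0 := h 0
    rw [mul_zero, add_zero, mul_zero, add_zero] at h0
    unfold g
    rw [e1, e2, h j, h0]
    show c * (S p B * (N' + b * j - 1) + q' + 1) = c * (S p B * (N' - 1) + q' + 1) + c * (S p B * b) * j
    obtain ⟨N, rfl⟩ := Nat.exists_eq_succ_of_ne_zero hN'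
    have e3 : N.succ + b * j - 1 = N + b * j := by omega
    have e4 : N.succ - 1 = N := rfl
    rw [e3, e4]
    ring

variable {c K : ℕ} {E : Finset ℕ} {p : LP} {B : ℕ}

theorem fx_pos (hc : 0 < c) (x : ℕ) {n : ℕ} (hn : 0 < n) : 0 < fx c K E p B x n := by
  unfold fx
  by_cases h1 : n % c ∉ E
  · rw [if_pos h1]
    exact C_pos hn
  · rw [if_neg h1]
    by_cases h2 : n % c = 0
    · rw [if_pos h2]
      exact g_pos hc _ _ _ _
    · rw [if_neg h2]
      split_ifs with h3
      · exact Nat.lt_of_lt_of_le (C_pos (Nat.pos_of_ne_zero h2)) (Nat.le_add_right _ _)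
      · exact Nat.succ_pos _

theorem fx_aff (hc : 0 < c) (h30 : 30 ∣ c) (hreg : ∀ r ∈ p.regs, r < B) (hB : 4 ≤ B) (x n : ℕ) (hn : 0 < n) :
    ∃ a, 0 < a ∧ ∀ j, fx c K E p B x (n + c * (S p B * D B) * j) = fx c K E p B x n + a * j := by
  have hSD : 0 < S p B * D B := Nat.mul_pos (S_pos p B) (D_pos B)
  have e1 : ∀ j, (n + c * (S p B * D B) * j) % c = n % c := by
    intro j
    rw [mul_assoc, Nat.add_mul_mod_self_left]
  have e2 : ∀ j, (n + c * (S p B * D B) * j) / c = n / c + S p B * D B * j := by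
    intro j
    rw [mul_assoc, Nat.add_mul_div_left _ _ hc]
  by_cases h1 : n % c ∉ E
  · obtain ⟨a, ha, h⟩ := C_aff n
    obtain ⟨d, hd⟩ := h30
    refine ⟨a * (d * (S p B * D B)), ?_, fun j => ?_⟩
    · have : 0 < d := by
        rcases Nat.eq_zero_or_pos d with h0 | h0
        · subst h0; omega
        · exact h0
      exact Nat.mul_pos ha (Nat.mul_pos this hSD)
    · have h2 := h (d * (S p B * D B) * j)
      unfold fx
      rw [e1, if_pos h1, if_pos h1]
      have e3 : n + c * (S p B * D B) * j = n + 30 * (d * (S p B * D B) * j) := by rw [hd]; ring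
      rw [e3, h2]
      ring
  · by_cases h2 : n % c = 0
    · have hk : 0 < n / c := by
        apply Nat.div_pos _ hc
        have := Nat.div_add_mod n c
        rw [h2, add_zero] at this
        rcases Nat.eq_zero_or_pos (n / c) with h0 | h0
        · rw [h0, mul_zero] at this
          omega
        · calc c = c * 1 := (mul_one c).symm
            _ ≤ c * (n / c) := Nat.mul_le_mul_left c h0
            _ = n := this
      obtain ⟨a, ha, h⟩ := g_aff hc p B x hreg hB (n / c) hk
      refine ⟨a, ha, fun j => ?_⟩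
      unfold fx
      rw [e1, e2, if_neg h1, if_neg h1, if_pos h2, if_pos h2, h j]
    · by_cases h3 : n % c ≤ K
      · refine ⟨S p B * D B, hSD, fun j => ?_⟩
        unfold fx
        rw [e1, e2, if_neg h1, if_neg h1, if_neg h2, if_neg h2, if_pos h3, if_pos h3]
        ring
      · refine ⟨S p B * D B, hSD, fun j => ?_⟩
        unfold fx
        rw [e1, e2, if_neg h1, if_neg h1, if_neg h2, if_neg h2, if_neg h3, if_neg h3]
        ring

/-- the map on `0, 1, 2, …` -/
noncomputable def F0 (c K : ℕ) (E : Finset ℕ) (p : LP) (B x n : ℕ) : ℕ := fx c K E p B x (n + 1) - 1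

theorem F0_aff (hc : 0 < c) (h30 : 30 ∣ c) (hreg : ∀ r ∈ p.regs, r < B) (hB : 4 ≤ B) (x n : ℕ) :
    ∃ a, 0 < a ∧ ∀ j, F0 c K E p B x (n + c * (S p B * D B) * j) = F0 c K E p B x n + a * j := by
  obtain ⟨a, ha, h⟩ := fx_aff (K := K) (E := E) hc h30 hreg hB x (n + 1) (Nat.succ_pos n)
  refine ⟨a, ha, fun j => ?_⟩
  unfold F0
  have e : n + c * (S p B * D B) * j + 1 = n + 1 + c * (S p B * D B) * j := by ring
  rw [e, h j]
  have := fx_pos (K := K) (E := E) (p := p) (B := B) hc x (Nat.succ_pos n)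
  rw [Nat.succ_eq_add_one] at this
  omega

theorem F0_isAff (hc : 0 < c) (h30 : 30 ∣ c) (hreg : ∀ r ∈ p.regs, r < B) (hB : 4 ≤ B) (x : ℕ) :
    IsAff (c * (S p B * D B)) (F0 c K E p B x) := by
  intro n
  obtain ⟨a, ha, h⟩ := F0_aff (K := K) (E := E) hc h30 hreg hB x n
  have h1 := h 1
  have h2 := h 2
  rw [mul_one, mul_one] at h1
  have e : n + 2 * (c * (S p B * D B)) = n + c * (S p B * D B) * 2 := by ring
  rw [e, h1, h2]
  omega

theorem F0_slope (hc : 0 < c) (h30 : 30 ∣ c) (hreg : ∀ r ∈ p.regs, r < B) (hB : 4 ≤ B) (x : ℕ) :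
    ∀ e ∈ tab (c * (S p B * D B)) (F0 c K E p B x), 0 < e.1 := by
  intro e he
  unfold tab at he
  obtain ⟨r, _, rfl⟩ := List.mem_map.1 he
  obtain ⟨a, ha, h⟩ := F0_aff (K := K) (E := E) hc h30 hreg hB x r
  have h1 := h 1
  rw [mul_one, mul_one] at h1
  show 0 < F0 c K E p B x (r + c * (S p B * D B)) - F0 c K E p B x r
  rw [h1]
  omega

/-- the dependence on `x` -/
theorem F0_eq (h0 : 0 ∈ E) (x n : ℕ) : F0 c K E p B x n =
    if (n + 1) % c = 0 ∧ ((n + 1) / c - 1) % S p B = 2 then
      c * (S p B * (pr 1 ^ x * (((n + 1) / c - 1) / S p B + 1) - 1) + 3 + 1) - 1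
    else F0 c K E p B 0 n := by
  by_cases h : (n + 1) % c = 0 ∧ ((n + 1) / c - 1) % S p B = 2
  · rw [if_pos h]
    obtain ⟨h2, h3⟩ := h
    have h1 : ¬ (n + 1) % c ∉ E := by
      rw [h2]
      exact not_not_intro h0
    unfold F0 fx g
    rw [if_neg h1, if_pos h2, h3, nx_two]
  · rw [if_neg h]
    unfold F0 fx
    by_cases h1 : (n + 1) % c ∉ E
    · rw [if_pos h1, if_pos h1]
    · rw [if_neg h1, if_neg h1]
      by_cases h2 : (n + 1) % c = 0
      · rw [if_pos h2, if_pos h2]
        have h3 : ((n + 1) / c - 1) % S p B ≠ 2 := fun h3 => h ⟨h2, h3⟩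
        unfold g nx
        simp only
        rw [if_neg h3, if_neg h3]
      · rw [if_neg h2, if_neg h2]

theorem primrec_pow (b : ℕ) : Primrec fun x : ℕ => b ^ x := by
  have hs : Primrec₂ fun (_ : ℕ) (q : ℕ × ℕ) => b * q.2 :=
    (Primrec.nat_mul.comp (Primrec.const b) (Primrec.snd.comp Primrec.snd)).to₂
  have h : Primrec fun x : ℕ => (Nat.rec 1 (fun _ IH => b * IH) x : ℕ) :=
    Primrec.nat_rec' Primrec.id (Primrec.const 1) hs
  refine h.of_eq fun x => ?_
  induction x with
  | zero => rfl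
  | succ x ih => rw [pow_succ, ← ih, mul_comm]

theorem F0_computable (h0 : 0 ∈ E) (hc : 0 < c) (h30 : 30 ∣ c) (hreg : ∀ r ∈ p.regs, r < B) (hB : 4 ≤ B) :
    Computable₂ (F0 c K E p B) := by
  have hm : 0 < c * (S p B * D B) := Nat.mul_pos hc (Nat.mul_pos (S_pos p B) (D_pos B))
  have h00 : Primrec (F0 c K E p B 0) := IsAff.primrec hm (F0_isAff hc h30 hreg hB 0)
  have hn : Primrec fun q : ℕ × ℕ => q.2 := Primrec.snd
  have hx : Primrec fun q : ℕ × ℕ => q.1 := Primrec.fst
  have h1 : Primrec fun q : ℕ × ℕ => q.2 + 1 := Primrec.succ.comp hn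
  have hmod : Primrec fun q : ℕ × ℕ => (q.2 + 1) % c := Primrec.nat_mod.comp h1 (Primrec.const c)
  have hdiv : Primrec fun q : ℕ × ℕ => (q.2 + 1) / c := Primrec.nat_div.comp h1 (Primrec.const c)
  have hk : Primrec fun q : ℕ × ℕ => (q.2 + 1) / c - 1 := Primrec.nat_sub.comp hdiv (Primrec.const 1)
  have hq : Primrec fun q : ℕ × ℕ => ((q.2 + 1) / c - 1) % S p B := Primrec.nat_mod.comp hk (Primrec.const _)
  have hN : Primrec fun q : ℕ × ℕ => ((q.2 + 1) / c - 1) / S p B + 1 :=
    Primrec.succ.comp (Primrec.nat_div.comp hk (Primrec.const _))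
  have hpow : Primrec fun q : ℕ × ℕ => pr 1 ^ q.1 := (primrec_pow (pr 1)).comp hx
  have hval : Primrec fun q : ℕ × ℕ =>
      c * (S p B * (pr 1 ^ q.1 * (((q.2 + 1) / c - 1) / S p B + 1) - 1) + 3 + 1) - 1 := by
    refine Primrec.nat_sub.comp (Primrec.nat_mul.comp (Primrec.const c) ?_) (Primrec.const 1)
    refine Primrec.nat_add.comp (Primrec.nat_add.comp (Primrec.nat_mul.comp (Primrec.const _) ?_)
      (Primrec.const 3)) (Primrec.const 1)
    exact Primrec.nat_sub.comp (Primrec.nat_mul.comp hpow hN) (Primrec.const 1)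
  have hcond : PrimrecPred fun q : ℕ × ℕ =>
      (q.2 + 1) % c = 0 ∧ ((q.2 + 1) / c - 1) % S p B = 2 :=
    (Primrec.eq.comp hmod (Primrec.const 0)).and (Primrec.eq.comp hq (Primrec.const 2))
  have h := Primrec.ite hcond hval (h00.comp hn)
  have h2 : Computable fun q : ℕ × ℕ => F0 c K E p B q.1 q.2 :=
    (h.of_eq fun q => (F0_eq h0 q.1 q.2).symm).to_comp
  exact h2

end KakU
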