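import Pool.Agent.Lib.KakU.Final

/-!
# The constants and the assembly
-/

set_option autoImplicit false

namespace KakU

open CPM CPM.FlatAux

/-- exponential growth -/
theorem evt (a b M : ℝ) (ha : 0 ≤ a) (hab : a < b) : ∀ᶠ j : ℕ in Filter.atTop, M * a ^ j ≤ b ^ j := by
  have hb : 0 < b := ha.trans_lt hab
  have h1 : Filter.Tendsto (fun j : ℕ => M * (a / b) ^ j) Filter.atTop (nhds (M * 0)) :=
    (tendsto_pow_atTop_nhds_zero_of_lt_one (div_nonneg ha hb.le) ((div_lt_one hb).2 hab)).const_mul M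
  rw [mul_zero] at h1
  filter_upwards [h1.eventually (gt_mem_nhds one_pos)] with j hj
  rw [div_pow, ← mul_div_assoc, div_lt_one (pow_pos hb j)] at hj
  exact hj.le

/-- all the constants -/
theorem consts (K : ℕ) (hK : ∀ n, 0 < n → n ≤ K → ∃ k, C^[k] n = 1) :
    ∃ j0, ∀ j ≥ j0, ∃ (E : Finset ℕ) (T B1 : ℕ), 1 ≤ j ∧ E ⊆ Finset.range (30 ^ j) ∧
      (E.card : ℝ) ≤ (2998 / 100) ^ j ∧ (∀ n, n % 30 ^ j ∉ E → H j n ≤ 1 / 2) ∧ (∀ r ≤ B1, r ∈ E) ∧ B1 < 30 ^ j ∧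
      2 * 8 ^ j ≤ B1 ∧ 16 * K + 2 ≤ B1 ∧ 2 * 8 ^ j ≤ 30 ^ j ∧ (∀ n, 0 < n → n ≤ K → ∃ t ≤ T, C^[t] n = 1) ∧
      8 ^ T * K < 30 ^ j := by
  -- the time bound
  have hT : ∃ T, ∀ n, 0 < n → n ≤ K → ∃ t ≤ T, C^[t] n = 1 := by
    choose t ht using hK
    refine ⟨∑ n ∈ Finset.range (K + 1), if h : 0 < n ∧ n ≤ K then t n h.1 h.2 else 0, fun n h1 h2 => ⟨t n h1 h2, ?_,
      ht n h1 h2⟩⟩
    have h3 := Finset.single_le_sum (f := fun n => if h : 0 < n ∧ n ≤ K then t n h.1 h.2 else 0)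
      (s := Finset.range (K + 1)) (fun _ _ => Nat.zero_le _) (Finset.mem_range.2 (Nat.lt_succ_of_le h2))
    simp only [h1, h2, and_self, dite_true] at h3
    exact h3
  obtain ⟨T, hT⟩ := hT
  have e1 := evt (2997 / 100) (2998 / 100) (3 * 6000) (by norm_num) (by norm_num)
  have e2 := evt 8 (2998 / 100) (3 * 2) (by norm_num) (by norm_num)
  have e3 := evt 1 (2998 / 100) (3 * (16 * K + 3)) (by norm_num) (by norm_num)
  have e4 := evt 8 30 (2 * 2) (by norm_num) (by norm_num)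
  have e5 := evt 1 30 (2 * (16 * K + 3 + 8 ^ T * K)) (by norm_num) (by norm_num)
  obtain ⟨j0, hj0⟩ := Filter.eventually_atTop.1
    (((((e1.and e2).and e3).and e4).and e5).and (Filter.eventually_ge_atTop 1))
  refine ⟨j0, fun j hj => ?_⟩
  obtain ⟨⟨⟨⟨⟨e1, e2⟩, e3⟩, e4⟩, e5⟩, e6⟩ := hj0 j hj
  rw [one_pow, mul_one] at e3 e5
  have e7 : 2 * 8 ^ j + 16 * K + 3 + 8 ^ T * K ≤ 30 ^ j := by
    have : (2 * 8 ^ j + 16 * K + 3 + 8 ^ T * K : ℝ) ≤ 30 ^ j := by linarith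
    exact_mod_cast this
  set B1 := 2 * 8 ^ j + 16 * K + 2 with hB1
  have hsub : Bad j ∪ Finset.range (B1 + 1) ⊆ Finset.range (30 ^ j) := by
    refine Finset.union_subset (Finset.filter_subset _ _) fun r hr => ?_
    rw [Finset.mem_range] at hr ⊢
    omega
  refine ⟨Bad j ∪ Finset.range (B1 + 1), T, B1, e6, hsub, ?_, ?_, ?_, by omega, by omega, by omega, by omega,
    hT, by omega⟩
  · obtain ⟨i, rfl⟩ := Nat.exists_eq_add_of_le' e6
    have h1 : ((Bad (i + 1)).card : ℝ) ≤ 6000 * (2997 / 100) ^ (i + 1) := by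
      have h2 := bad_card i
      have h3 : (((Bad (i + 1)).card : ℚ) : ℝ) ≤ ((6000 * (999 / 1000) ^ i * 30 ^ i : ℚ) : ℝ) := Rat.cast_le.2 h2
      push_cast at h3
      have h4 : (6000 * (999 / 1000) ^ i * 30 ^ i : ℝ) = 6000 * (2997 / 100) ^ i := by
        rw [mul_assoc, ← mul_pow]
        norm_num
      rw [h4] at h3
      refine h3.trans ?_
      have h5 : (0 : ℝ) ≤ (2997 / 100) ^ i := by positivity
      rw [pow_succ]
      linarith
    have h2 : ((Finset.range (B1 + 1)).card : ℝ) = 2 * 8 ^ (i + 1) + 16 * K + 3 := by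
      rw [Finset.card_range, hB1]
      push_cast
      ring
    have h3 := Finset.card_union_le (Bad (i + 1)) (Finset.range (B1 + 1))
    have h4 : ((Bad (i + 1) ∪ Finset.range (B1 + 1)).card : ℝ) ≤
        ((Bad (i + 1)).card : ℝ) + ((Finset.range (B1 + 1)).card : ℝ) := by exact_mod_cast h3
    linarith
  · intro n hn
    exact not_bad fun hb => hn (Finset.mem_union_left _ hb)
  · intro r hr
    exact Finset.mem_union_right _ (Finset.mem_range.2 (by omega))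

/-- **Totality is as hard as possible arbitrarily near `C`.** -/
theorem near (K : ℕ) (hK : ∀ n, 0 < n → n ≤ K → ∃ k, C^[k] n = 1) :
    ∃ j0, ∀ j ≥ j0, ∃ E : Finset ℕ, E ⊆ Finset.range (30 ^ j) ∧ (E.card : ℝ) ≤ (2998 / 100) ^ j ∧
      ∀ R : ℕ → ℕ → Prop, (REPred fun q : ℕ × ℕ => R q.1 q.2) →
        ∃ (L : ℕ → List (ℕ × ℕ)) (s : ℕ → ℕ), Computable L ∧ Computable s ∧ (∀ y, 0 < s y) ∧
          ∀ x, L x ≠ [] ∧ (∀ e ∈ L x, 0 < e.1 ∧ 0 < e.2) ∧
          (∀ n, 0 < n → (n ≤ K ∨ n % 30 ^ j ∉ E) → cmap (L x) n = C n) ∧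
          (∀ n, 0 < n → (∃ k, (cmap (L x))^[k] n = 1) ∨ ∀ M, ∃ k, M < (cmap (L x))^[k] n) ∧
          (∀ y, (∃ k, (cmap (L x))^[k] (s y) = 1) ↔ R x y) ∧
          ((∀ n, 0 < n → ∃ k, (cmap (L x))^[k] n = 1) ↔ ∀ y, R x y) := by
  obtain ⟨j0, hj0⟩ := consts K hK
  refine ⟨j0, fun j hjj => ?_⟩
  obtain ⟨E, T, B1, hj, hEs, hEc, hJ, hsm, hB1c, hJB, hKB, hJc, hT, hTc⟩ := hj0 j hjj
  refine ⟨E, hEs, hEc, fun R hR => ?_⟩
  obtain ⟨f, hf, hfR, hmono⟩ := exists_T_mono R hR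
  obtain ⟨p, hp, hpf⟩ := exists_lp hf (fun j : Fin 3 => (j : ℕ)) 3 4 (fun j => by omega) (fun j => by omega)
    (by omega)
  obtain ⟨B, hB, hreg⟩ : ∃ B, 4 ≤ B ∧ ∀ r ∈ p.regs, r < B := by
    refine ⟨p.regs.sup id + 4, by omega, fun r hr => ?_⟩
    have := Finset.le_sup (f := id) hr
    simp only [id] at this
    omega
  have h0 : 0 ∈ E := hsm 0 (Nat.zero_le _)
  have hc : 0 < 30 ^ j := by positivity
  have hc1 : 1 < 30 ^ j := by omega
  have h30 : 30 ∣ 30 ^ j := dvd_pow_self 30 (by omega)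
  have hm : 0 < 30 ^ j * (S p B * D B) := Nat.mul_pos hc (Nat.mul_pos (S_pos p B) (D_pos B))
  have hcm : ∀ x n, 0 < n → cmap (tab (30 ^ j * (S p B * D B)) (F0 (30 ^ j) K E p B x)) n =
      fx (30 ^ j) K E p B x n := by
    intro x n hn
    rw [cmap_tab hm (F0_isAff hc h30 hreg hB x) n hn]
    unfold F0
    have e : n - 1 + 1 = n := Nat.sub_add_cancel hn
    have := fx_pos (K := K) (E := E) (p := p) (B := B) hc x hn
    rw [e]
    omega
  have hit : ∀ x k n, 0 < n → (cmap (tab (30 ^ j * (S p B * D B)) (F0 (30 ^ j) K E p B x)))^[k] n =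
      (fx (30 ^ j) K E p B x)^[k] n := by
    intro x k
    induction k with
    | zero => exact fun n _ => rfl
    | succ k ih =>
      intro n hn
      rw [Function.iterate_succ_apply, Function.iterate_succ_apply, hcm x n hn, ih _ (fx_pos hc x hn)]
  have hstart : ∀ x y, (∃ k, (fx (30 ^ j) K E p B x)^[k] (cd (30 ^ j) p B 0 (pr 0 ^ y)) = 1) ↔ R x y := by
    intro x y
    constructor
    · rintro ⟨k, hk⟩
      by_contra hy
      refine not_total (K := K) (E := E) hc h0 hp hreg hB f hpf x hc1 (y := y) (fun l => ?_) k hk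
      by_contra hl
      exact hy ((hfR x y).2 ⟨l, hl⟩)
    · intro h
      obtain ⟨k, hk⟩ := (hfR x y).1 h
      exact reach_one (K := K) (E := E) hc h0 hp hreg hB f hpf hmono x hk
  have htot : ∀ x, (∀ y, R x y) → ∀ n, 0 < n → ∃ k, (fx (30 ^ j) K E p B x)^[k] n = 1 := by
    intro x hall
    have hT' : ∀ y, ∃ K0, ∀ k, K0 ≤ k → f ⟨[y, x, k], rfl⟩ ≠ 0 := by
      intro y
      obtain ⟨k, hk⟩ := (hfR x y).1 (hall y)
      exact ⟨k, fun l hl => mono_le f hmono x hk hl⟩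
    exact induct hc h0 hreg hB x (fun n => ∃ k, (fx (30 ^ j) K E p B x)^[k] n = 1)
      (fun n _ ⟨k, hk⟩ => ⟨k + 1, hk⟩) ⟨0, rfl⟩
      (fun q hq N hN => Or.inl (exits p B x hp hreg hB f hpf hT' q hq N hN)) j T B1 hJ hsm hB1c hJB hKB hJc hT hTc
  have hcdp : ∀ y, 0 < cd (30 ^ j) p B 0 (pr 0 ^ y) := fun y => Nat.lt_of_lt_of_le hc (c_le_cd _ _)
  refine ⟨fun x => tab (30 ^ j * (S p B * D B)) (F0 (30 ^ j) K E p B x), fun y => cd (30 ^ j) p B 0 (pr 0 ^ y),
    tab_computable (m := fun _ => 30 ^ j * (S p B * D B)) (Computable.const _) (F0_computable h0 hc h30 hreg hB),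
    ?_, hcdp, fun x => ⟨?_, ?_, ?_, ?_, ?_, ?_⟩⟩
  · refine Primrec.to_comp ?_
    show Primrec fun y => 30 ^ j * (S p B * (pr 0 ^ y - 1) + 0 + 1)
    exact Primrec.nat_mul.comp (Primrec.const _) (Primrec.succ.comp (Primrec.nat_add.comp
      (Primrec.nat_mul.comp (Primrec.const _) (Primrec.nat_sub.comp (primrec_pow (pr 0)) (Primrec.const 1)))
      (Primrec.const 0)))
  · intro he
    have := tab_length (30 ^ j * (S p B * D B)) (F0 (30 ^ j) K E p B x)
    have he' : tab (30 ^ j * (S p B * D B)) (F0 (30 ^ j) K E p B x) = [] := he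
    rw [he'] at this
    simp only [List.length_nil] at this
    omega
  · intro e he
    refine ⟨F0_slope hc h30 hreg hB x e he, ?_⟩
    unfold tab at he
    obtain ⟨r, _, rfl⟩ := List.mem_map.1 he
    exact Nat.succ_pos _
  · intro n hn h
    rw [hcm x n hn]
    rcases h with h | h
    · exact fx_of_le x hn h (by omega)
    · exact fx_of_not_mem x h
  · intro n hn
    have h := induct hc h0 hreg hB x
      (fun n => (∃ k, (fx (30 ^ j) K E p B x)^[k] n = 1) ∨ ∀ M, ∃ k, M < (fx (30 ^ j) K E p B x)^[k] n)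
      (fun n _ h => by
        rcases h with ⟨k, hk⟩ | h
        · exact Or.inl ⟨k + 1, hk⟩
        · right
          intro M
          obtain ⟨k, hk⟩ := h M
          exact ⟨k + 1, hk⟩) (Or.inl ⟨0, rfl⟩)
      (fun q hq N hN => by
        rcases machine_alt (K := K) (E := E) hc h0 hp hreg hB f hpf hmono x q hq N hN with h | h
        · exact Or.inl h
        · exact Or.inr (Or.inr h)) j T B1 hJ hsm hB1c hJB hKB hJc hT hTc n hn
    rcases h with ⟨k, hk⟩ | h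
    · exact Or.inl ⟨k, by rw [hit x k n hn]; exact hk⟩
    · right
      intro M
      obtain ⟨k, hk⟩ := h M
      exact ⟨k, by rw [hit x k n hn]; exact hk⟩
  · intro y
    rw [← hstart x y]
    exact exists_congr fun k => by rw [hit x k _ (hcdp y)]
  · constructor
    · intro hall y
      obtain ⟨k, hk⟩ := hall _ (hcdp y)
      exact (hstart x y).1 ⟨k, by rw [← hit x k _ (hcdp y)]; exact hk⟩
    · intro hall n hn
      obtain ⟨k, hk⟩ := htot x hall n hn
      exact ⟨k, by rw [hit x k n hn]; exact hk⟩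

end KakU
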