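import Pool.Agent.Lib.CPM.Machine

/-!
# LOOP programs inside an arbitrary machine

Runs of the code of a LOOP program from its first label and from an arbitrary label, all numbers `N ≠ 0`.
-/

set_option autoImplicit false

namespace KakU

open CPM CPM.FlatAux

/-- execution of an instruction -/
def pex (i : PI ℕ) (N : ℕ) : Option (ℕ × ℕ) :=
  match i with
  | .halt => none
  | .go q => some (q, N)
  | .inc p q => some (q, p * N)
  | .dec p q0 q1 => if p ∣ N then some (q1, N / p) else some (q0, N)

theorem div_ne_zero' {N p : ℕ} (h : p ∣ N) (hN : N ≠ 0) : N / p ≠ 0 := by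
  obtain ⟨K, rfl⟩ := h
  have hp : p ≠ 0 := by rintro rfl; simp at hN
  rw [Nat.mul_div_cancel_left _ (Nat.pos_of_ne_zero hp)]
  rintro rfl
  simp at hN

/-- programs without increments -/
def NI : LP → Prop
  | .nop => True
  | .inc _ => False
  | .seq a b => NI a ∧ NI b
  | .loop _ a => NI a

/-- the code from its first label -/
theorem code_run (p : LP) (hp : p.ok) (f : ℕ × ℕ → Option (ℕ × ℕ)) (a e : ℕ)
    (hf : ∀ i < p.size, ∀ N, f (a + i, N) = pex ((p.code a e).getD i .halt) N) (N : ℕ) (hN : N ≠ 0) :
    ∃ n N', run f n (a, N) = some (e, N') ∧ N' ≠ 0 ∧ val N' = p.ev (val N) ∧ (NI p → N' ≤ N) := by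
  induction p generalizing a e N with
  | nop =>
    have h := hf 0 (by simp [LP.size])
    simp only [LP.code, add_zero, List.getD_cons_zero] at h
    refine ⟨1, N, ?_, hN, rfl, fun _ => le_rfl⟩
    simp [run, pex, h]
  | inc r =>
    have h := hf 0 (by simp [LP.size])
    simp only [LP.code, add_zero, List.getD_cons_zero] at h
    refine ⟨1, pr r * N, ?_, Nat.mul_ne_zero (pr_prime r).ne_zero hN, val_mul r N hN, fun h => h.elim⟩
    simp [run, pex, h]
  | seq p q ihp ihq =>
    have h1 : ∀ i < p.size, ∀ N, f (a + i, N) = pex ((p.code a (a + p.size)).getD i .halt) N := by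
      intro i hi N
      rw [hf i (by simp only [LP.size]; omega)]
      simp only [LP.code]
      rw [List.getD_append _ _ _ _ (by rw [LP.code_length]; exact hi)]
    have h2 : ∀ i < q.size, ∀ N, f (a + p.size + i, N) = pex ((q.code (a + p.size) e).getD i .halt) N := by
      intro i hi N
      rw [add_assoc, hf (p.size + i) (by simp only [LP.size]; omega)]
      simp only [LP.code]
      rw [List.getD_append_right _ _ _ _ (by rw [LP.code_length]; omega), LP.code_length,
        Nat.add_sub_cancel_left]
    obtain ⟨n, N', h3, h4, h5, h5'⟩ := ihp hp.1 a (a + p.size) h1 N hN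
    obtain ⟨m, N'', h6, h7, h8, h8'⟩ := ihq hp.2 (a + p.size) e h2 N' h4
    refine ⟨n + m, N'', ?_, h7, ?_, fun h => (h8' h.2).trans (h5' h.1)⟩
    · rw [run_add _ _ _ _ _ h3, h6]
    · rw [h8, h5]; rfl
  | loop r p ih =>
    have h0 := hf 0 (by simp only [LP.size]; omega)
    simp only [LP.code, add_zero, List.getD_cons_zero] at h0
    have h1 : ∀ i < p.size, ∀ N, f (a + 1 + i, N) = pex ((p.code (a + 1) a).getD i .halt) N := by
      intro i hi N
      rw [add_assoc, add_comm 1 i, hf (i + 1) (by simp only [LP.size]; omega)]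
      simp only [LP.code]
      rw [List.getD_cons_succ]
    have key : ∀ m : ℕ, ∀ N : ℕ, N ≠ 0 → val N r = m →
        ∃ n N', run f n (a, N) = some (e, N') ∧ N' ≠ 0 ∧
          val N' = (fun τ => p.ev (Function.update τ r (τ r - 1)))^[m] (val N) ∧ (NI p → N' ≤ N) := by
      intro m
      induction m with
      | zero =>
        intro N hN hv
        refine ⟨1, N, ?_, hN, rfl, fun _ => le_rfl⟩
        have h2 := (val_zero_iff r N hN).1 hv
        simp [run, pex, h0, h2]
      | succ m ihm =>
        intro N hN hv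
        have h2 : pr r ∣ N := by
          by_contra h3
          have := (val_zero_iff r N hN).2 h3
          omega
        obtain ⟨n, N', h3, h4, h5, h5'⟩ := ih hp.2 (a + 1) a h1 (N / pr r) (div_ne_zero' h2 hN)
        rw [val_div r N hN h2] at h5
        have h6 : val N' r = m := by
          rw [h5, LP.ev_notMem _ _ _ hp.1, Function.update_self, hv]
          rfl
        obtain ⟨n', N'', h7, h8, h9, h9'⟩ := ihm N' h4 h6
        have h10 : run f 1 (a, N) = some (a + 1, N / pr r) := by
          simp [run, pex, h0, h2]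
        refine ⟨1 + n + n', N'', ?_, h8, ?_, fun h => (h9' h).trans ((h5' h).trans (Nat.div_le_self _ _))⟩
        · have h11 : run f (1 + n) (a, N) = some (a, N') := by
            rw [run_add _ _ _ _ _ h10, h3]
          rw [run_add _ _ _ _ _ h11, h7]
        · rw [h9, Function.iterate_succ, Function.comp, h5]
    exact key (val N r) N hN rfl

/-- the code from an arbitrary label -/
theorem code_any (p : LP) (hp : p.ok) (f : ℕ × ℕ → Option (ℕ × ℕ)) (a e : ℕ)
    (hf : ∀ i < p.size, ∀ N, f (a + i, N) = pex ((p.code a e).getD i .halt) N) (i : ℕ) (hi : i < p.size)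
    (N : ℕ) (hN : N ≠ 0) : ∃ n N', run f n (a + i, N) = some (e, N') ∧ N' ≠ 0 ∧ (NI p → N' ≤ N) := by
  induction p generalizing a e N i with
  | nop =>
    have hi0 : i = 0 := by simp only [LP.size] at hi; omega
    subst hi0
    obtain ⟨n, N', h1, h2, _, h3⟩ := code_run LP.nop hp f a e hf N hN
    exact ⟨n, N', h1, h2, h3⟩
  | inc r =>
    have hi0 : i = 0 := by simp only [LP.size] at hi; omega
    subst hi0
    obtain ⟨n, N', h1, h2, _, h3⟩ := code_run (LP.inc r) hp f a e hf N hN
    exact ⟨n, N', h1, h2, h3⟩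
  | seq p q ihp ihq =>
    have h1 : ∀ i < p.size, ∀ N, f (a + i, N) = pex ((p.code a (a + p.size)).getD i .halt) N := by
      intro i hi N
      rw [hf i (by simp only [LP.size]; omega)]
      simp only [LP.code]
      rw [List.getD_append _ _ _ _ (by rw [LP.code_length]; exact hi)]
    have h2 : ∀ i < q.size, ∀ N, f (a + p.size + i, N) = pex ((q.code (a + p.size) e).getD i .halt) N := by
      intro i hi N
      rw [add_assoc, hf (p.size + i) (by simp only [LP.size]; omega)]
      simp only [LP.code]
      rw [List.getD_append_right _ _ _ _ (by rw [LP.code_length]; omega), LP.code_length,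
        Nat.add_sub_cancel_left]
    by_cases hip : i < p.size
    · obtain ⟨n, N', h3, h4, h4'⟩ := ihp hp.1 a (a + p.size) h1 i hip N hN
      obtain ⟨m, N'', h5, h6, _, h6'⟩ := code_run q hp.2 f (a + p.size) e h2 N' h4
      exact ⟨n + m, N'', by rw [run_add _ _ _ _ _ h3, h5], h6, fun h => (h6' h.2).trans (h4' h.1)⟩
    · obtain ⟨n, N', h3, h4, h4'⟩ := ihq hp.2 (a + p.size) e h2 (i - p.size)
        (by simp only [LP.size] at hi; omega) N hN
      refine ⟨n, N', ?_, h4, fun h => h4' h.2⟩
      have e1 : a + i = a + p.size + (i - p.size) := by omega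
      rw [e1, h3]
  | loop r p ih =>
    have h1 : ∀ i < p.size, ∀ N, f (a + 1 + i, N) = pex ((p.code (a + 1) a).getD i .halt) N := by
      intro i hi N
      rw [add_assoc, add_comm 1 i, hf (i + 1) (by simp only [LP.size]; omega)]
      simp only [LP.code]
      rw [List.getD_cons_succ]
    rcases i with _ | i
    · obtain ⟨n, N', h3, h4, _, h5⟩ := code_run (LP.loop r p) hp f a e hf N hN
      exact ⟨n, N', h3, h4, h5⟩
    · obtain ⟨n, N', h3, h4, h4'⟩ := ih hp.2 (a + 1) a h1 i (by simp only [LP.size] at hi; omega) N hN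
      obtain ⟨m, N'', h5, h6, _, h6'⟩ := code_run (LP.loop r p) hp f a e hf N' h4
      refine ⟨n + m, N'', ?_, h6, fun h => (h6' h).trans (h4' h)⟩
      have e1 : a + (i + 1) = a + 1 + i := by omega
      rw [e1, run_add _ _ _ _ _ h3, h5]

/-- the primes of the instructions of a code -/
theorem code_pr (p : LP) (a e i : ℕ) :
    ((p.code a e).getD i .halt).pr = 1 ∨ ∃ r ∈ p.regs, ((p.code a e).getD i .halt).pr = pr r := by
  induction p generalizing a e i with
  | nop =>
    rcases i with _ | i
    · left; simp [LP.code, PI.pr]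
    · left; simp [LP.code, PI.pr]
  | inc r =>
    rcases i with _ | i
    · right; exact ⟨r, by simp [LP.regs], by simp [LP.code, PI.pr]⟩
    · left; simp [LP.code, PI.pr]
  | seq p q hp hq =>
    simp only [LP.code]
    by_cases hi : i < (p.code a (a + p.size)).length
    · rw [List.getD_append _ _ _ _ hi]
      rcases hp a (a + p.size) i with h | ⟨r, hr, h⟩
      · exact Or.inl h
      · exact Or.inr ⟨r, by simp [LP.regs, hr], h⟩
    · rw [List.getD_append_right _ _ _ _ (by omega)]
      rcases hq (a + p.size) e (i - (p.code a (a + p.size)).length) with h | ⟨r, hr, h⟩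
      · exact Or.inl h
      · exact Or.inr ⟨r, by simp [LP.regs, hr], h⟩
  | loop r p hp =>
    simp only [LP.code]
    rcases i with _ | i
    · right
      exact ⟨r, by simp [LP.regs], by rw [List.getD_cons_zero]; rfl⟩
    · rw [List.getD_cons_succ]
      rcases hp (a + 1) a i with h | ⟨r', hr', h⟩
      · exact Or.inl h
      · exact Or.inr ⟨r', by simp [LP.regs, hr'], h⟩

/-- `N` and `N'` agree at all primes but those of the registers `< B` -/
def Same (B N N' : ℕ) : Prop := ∀ l : ℕ, (∀ r < B, l ≠ pr r) → N'.factorization l = N.factorization l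

theorem Same.refl (B N : ℕ) : Same B N N := fun _ _ => rfl

theorem Same.trans {B N N' N'' : ℕ} (h : Same B N N') (h' : Same B N' N'') : Same B N N'' :=
  fun l hl => (h' l hl).trans (h l hl)

theorem same_mul {B r N : ℕ} (hr : r < B) (hN : N ≠ 0) : Same B N (pr r * N) := by
  intro l hl
  rw [Nat.factorization_mul (pr_prime r).ne_zero hN, (pr_prime r).factorization, Finsupp.add_apply,
    Finsupp.single_eq_of_ne (hl r hr), zero_add]

theorem same_pow_mul {B r N : ℕ} (x : ℕ) (hr : r < B) (hN : N ≠ 0) : Same B N (pr r ^ x * N) := by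
  induction x with
  | zero => rw [pow_zero, one_mul]; exact Same.refl B N
  | succ x ih =>
    have e : pr r ^ (x + 1) * N = pr r * (pr r ^ x * N) := by ring
    rw [e]
    exact ih.trans (same_mul hr (Nat.mul_ne_zero (pow_ne_zero _ (pr_prime r).ne_zero) hN))

theorem same_div {B r N : ℕ} (hr : r < B) (hN : N ≠ 0) (h : pr r ∣ N) : Same B N (N / pr r) := by
  have h1 := same_mul hr (div_ne_zero' h hN)
  rw [Nat.mul_div_cancel' h] at h1
  exact fun l hl => (h1 l hl).symm

theorem pex_same {B : ℕ} {i : PI ℕ} {N : ℕ} (hi : i.pr = 1 ∨ ∃ r < B, i.pr = pr r) (hN : N ≠ 0) {q N' : ℕ}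
    (h : pex i N = some (q, N')) : N' ≠ 0 ∧ Same B N N' := by
  cases i with
  | halt => simp [pex] at h
  | go q' =>
    simp only [pex, Option.some.injEq, Prod.mk.injEq] at h
    rw [← h.2]
    exact ⟨hN, Same.refl B N⟩
  | inc p q' =>
    simp only [pex, Option.some.injEq, Prod.mk.injEq] at h
    rw [← h.2]
    simp only [PI.pr] at hi
    rcases hi with rfl | ⟨r, hr, rfl⟩
    · rw [one_mul]; exact ⟨hN, Same.refl B N⟩
    · exact ⟨Nat.mul_ne_zero (pr_prime r).ne_zero hN, same_mul hr hN⟩
  | dec p q0 q1 =>
    simp only [pex] at h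
    simp only [PI.pr] at hi
    split_ifs at h with hd
    · simp only [Option.some.injEq, Prod.mk.injEq] at h
      rw [← h.2]
      rcases hi with rfl | ⟨r, hr, rfl⟩
      · rw [Nat.div_one]; exact ⟨hN, Same.refl B N⟩
      · exact ⟨div_ne_zero' hd hN, same_div hr hN hd⟩
    · simp only [Option.some.injEq, Prod.mk.injEq] at h
      rw [← h.2]
      exact ⟨hN, Same.refl B N⟩

/-- if all registers `< B` are empty then `N'` is at most `N` -/
theorem le_of_same {B N N' : ℕ} (h : Same B N N') (hN : N ≠ 0) (hN' : N' ≠ 0) (h0 : ∀ r < B, val N' r = 0) :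
    N' ≤ N := by
  refine Nat.le_of_dvd (Nat.pos_of_ne_zero hN) ?_
  rw [← Nat.factorization_le_iff_dvd hN' hN]
  intro l
  by_cases hl : ∃ r < B, l = pr r
  · obtain ⟨r, hr, rfl⟩ := hl
    have := h0 r hr
    unfold val at this
    rw [this]
    exact Nat.zero_le _
  · push Not at hl
    exact (h l hl).le

/-- clear the registers `< B` -/
def clrAll : ℕ → LP
  | 0 => .nop
  | B + 1 => .seq (clrAll B) (LP.clr B)

theorem clrAll_ok (B : ℕ) : (clrAll B).ok := by
  induction B with
  | zero => trivial
  | succ B ih => exact ⟨ih, LP.clr_ok B⟩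

theorem clrAll_NI (B : ℕ) : NI (clrAll B) := by
  induction B with
  | zero => trivial
  | succ B ih => exact ⟨ih, trivial⟩

theorem clrAll_regs (B : ℕ) : ∀ r ∈ (clrAll B).regs, r < B := by
  induction B with
  | zero => intro r hr; simp [clrAll, LP.regs] at hr
  | succ B ih =>
    intro r hr
    simp only [clrAll, LP.regs, Finset.mem_union, LP.clr_regs, Finset.mem_singleton] at hr
    rcases hr with h | h
    · exact (ih r h).trans (Nat.lt_succ_self B)
    · omega

theorem clrAll_ev (B : ℕ) (σ : ℕ → ℕ) : ∀ r < B, (clrAll B).ev σ r = 0 := by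
  induction B with
  | zero => intro r hr; omega
  | succ B ih =>
    intro r hr
    show (LP.clr B).ev ((clrAll B).ev σ) r = 0
    rw [LP.clr_ev]
    by_cases h : r = B
    · rw [h, Function.update_self]
    · rw [Function.update_of_ne h]
      exact ih r (by omega)

end KakU
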